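import Pool.Agent.H884.CR.Core
import Pool.Agent.H884.CR.Kernel

/-!
# The column bound along an envelope curve
-/

set_option autoImplicit false

open MeasureTheory Set Filter Topology Complex Polynomial

namespace Pool.Agent.H884.CR

open Pool.Agent.W753.CZ

universe u

variable {H : Type u} [NormedAddCommGroup H] [InnerProductSpace ℂ H]

/-- finite Hilbert sums of copies of `H` -/
abbrev E (W : Type) (H : Type u) [NormedAddCommGroup H] [InnerProductSpace ℂ H] : Type u :=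
  PiLp 2 (fun _ : W => H)

section maps

variable {W ι : Type} [Fintype W] [Fintype ι]

/-- a row of operators -/
noncomputable def row (R : W → H →L[ℂ] H) : E W H →L[ℂ] H :=
  ∑ w, (R w).comp (PiLp.proj 2 (fun _ : W => H) w)

/-- a column of operators -/
noncomputable def col (R : W → H →L[ℂ] H) : H →L[ℂ] E W H :=
  ((PiLp.continuousLinearEquiv 2 ℂ (fun _ : W => H)).symm : (W → H) →L[ℂ] E W H).comp
    (ContinuousLinearMap.pi R)

/-- a matrix of operators -/
noncomputable def mat (R : W → ι → H →L[ℂ] H) : E ι H →L[ℂ] E W H :=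
  ((PiLp.continuousLinearEquiv 2 ℂ (fun _ : W => H)).symm : (W → H) →L[ℂ] E W H).comp
    (ContinuousLinearMap.pi fun w => row (R w))

theorem row_apply (R : W → H →L[ℂ] H) (a : E W H) : row R a = ∑ w, R w (a w) := by
  simp [row]

omit [Fintype W] in
theorem col_apply (R : W → H →L[ℂ] H) (x : H) (w : W) : col R x w = R w x := by
  simp [col]

omit [Fintype W] in
theorem mat_apply (R : W → ι → H →L[ℂ] H) (y : E ι H) (w : W) : mat R y w = ∑ i, R w i (y i) := by
  simp [mat, row_apply]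

/-- Cauchy–Schwarz for finite combinations of vectors -/
theorem norm_comb (g : W → ℂ) (hg : ∑ w, ‖g w‖ ^ 2 ≤ 1) (a : E W H) :
    ‖∑ w, g w • a w‖ ≤ ‖a‖ := by
  have h1 : ‖∑ w, g w • a w‖ ≤ ∑ w, ‖g w‖ * ‖a w‖ := by
    refine (norm_sum_le _ _).trans (le_of_eq ?_)
    exact Finset.sum_congr rfl fun w _ => norm_smul _ _
  have h2 : (∑ w, ‖g w‖ * ‖a w‖) ^ 2 ≤ (∑ w, ‖g w‖ ^ 2) * ∑ w, ‖a w‖ ^ 2 :=
    Finset.sum_mul_sq_le_sq_mul_sq _ _ _
  have h3 : ‖a‖ ^ 2 = ∑ w, ‖a w‖ ^ 2 := PiLp.norm_sq_eq_of_L2 _ a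
  rw [← h3] at h2
  have h4 : (∑ w, ‖g w‖ * ‖a w‖) ^ 2 ≤ ‖a‖ ^ 2 := by
    refine h2.trans ?_
    calc (∑ w, ‖g w‖ ^ 2) * ‖a‖ ^ 2 ≤ 1 * ‖a‖ ^ 2 := by gcongr
      _ = _ := one_mul _
  exact h1.trans (le_of_sq_le_sq h4 (norm_nonneg _))

end maps

/-- the mean of an operator function with a scalar weight -/
noncomputable def J (X : ℝ → H →L[ℂ] H) (g : ℝ → ℂ) : H →L[ℂ] H :=
  (((2 * Real.pi : ℝ) : ℂ))⁻¹ • ∫ φ in (0 : ℝ)..(2 * Real.pi), g φ • X φ

theorem J_inner [CompleteSpace H] (X : ℝ → H →L[ℂ] H) (hX : Continuous X) (g : ℝ → ℂ)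
    (hg : Continuous g) (v u : H) :
    inner ℂ v (J X g u) =
      (((2 * Real.pi : ℝ) : ℂ))⁻¹ * ∫ φ in (0 : ℝ)..(2 * Real.pi), g φ * inner ℂ v (X φ u) := by
  have e1 := ContinuousLinearMap.intervalIntegral_comp_comm
    ((innerSL ℂ v).comp (ContinuousLinearMap.apply ℂ H u)) (f := fun φ => g φ • X φ) (a := (0 : ℝ))
    (b := 2 * Real.pi) (μ := volume) (Continuous.intervalIntegrable (by fun_prop) _ _)
  rw [J, smul_apply, inner_smul_right]
  congr 1
  have e2 : inner ℂ v ((∫ φ in (0 : ℝ)..(2 * Real.pi), g φ • X φ) u) =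
      ((innerSL ℂ v).comp (ContinuousLinearMap.apply ℂ H u))
        (∫ φ in (0 : ℝ)..(2 * Real.pi), g φ • X φ) := rfl
  rw [e2, ← e1]
  apply intervalIntegral.integral_congr
  intro φ _
  show inner ℂ v ((g φ • X φ) u) = g φ * inner ℂ v (X φ u)
  rw [smul_apply, inner_smul_right]

/-- bilinear sums of means are means of bilinear sums -/
theorem bil_int [CompleteSpace H] {W ι : Type} [Fintype W] [Fintype ι] (X : ℝ → H →L[ℂ] H)
    (hX : Continuous X) (g : W → ℝ → ℂ) (hg : ∀ w, Continuous (g w)) (h : ι → ℝ → ℂ)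
    (hh : ∀ i, Continuous (h i)) (a : E W H) (y : E ι H) :
    ∑ w, ∑ i, inner ℂ (a w) (J X (fun φ => g w φ * h i φ) (y i)) =
      (((2 * Real.pi : ℝ) : ℂ))⁻¹ * ∫ φ in (0 : ℝ)..(2 * Real.pi),
        inner ℂ (∑ w, (starRingEnd ℂ) (g w φ) • a w) (X φ (∑ i, h i φ • y i)) := by
  have e1 : ∀ φ, inner ℂ (∑ w, (starRingEnd ℂ) (g w φ) • a w) (X φ (∑ i, h i φ • y i)) =
      ∑ w, ∑ i, g w φ * h i φ * inner ℂ (a w) (X φ (y i)) := by
    intro φ
    rw [sum_inner]
    refine Finset.sum_congr rfl fun w _ => ?_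
    rw [map_sum, inner_sum]
    refine Finset.sum_congr rfl fun i _ => ?_
    rw [map_smul, inner_smul_left, inner_smul_right, RCLike.conj_conj, mul_assoc]
  simp only [e1]
  rw [intervalIntegral.integral_finsetSum (fun w _ => by
    apply Continuous.intervalIntegrable
    have := hg w
    fun_prop)]
  rw [Finset.mul_sum]
  refine Finset.sum_congr rfl fun w _ => ?_
  rw [intervalIntegral.integral_finsetSum (fun i _ => by
    apply Continuous.intervalIntegrable
    have := hg w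
    have := hh i
    fun_prop)]
  rw [Finset.mul_sum]
  refine Finset.sum_congr rfl fun i _ => ?_
  rw [J_inner X hX _ (by have := hg w; have := hh i; fun_prop)]

/-- the bilinear bound -/
theorem bil_bound [CompleteSpace H] {W ι : Type} [Fintype W] [Fintype ι] (X : ℝ → H →L[ℂ] H)
    (hX : Continuous X) (K : ℝ) (hK : ∀ φ ∈ uIcc (0 : ℝ) (2 * Real.pi), ‖X φ‖ ≤ K)
    (g : W → ℝ → ℂ) (hg : ∀ w, Continuous (g w))
    (h : ι → ℝ → ℂ) (hh : ∀ i, Continuous (h i)) (hg1 : ∀ φ, ∑ w, ‖g w φ‖ ^ 2 ≤ 1)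
    (hh1 : ∀ φ, ∑ i, ‖h i φ‖ ^ 2 ≤ 1) (a : E W H) (y : E ι H) :
    ‖∑ w, ∑ i, inner ℂ (a w) (J X (fun φ => g w φ * h i φ) (y i))‖ ≤ K * (‖a‖ * ‖y‖) := by
  have hπ : (0 : ℝ) < 2 * Real.pi := by positivity
  rw [bil_int X hX g hg h hh, norm_mul, norm_inv, Complex.norm_real, Real.norm_eq_abs,
    abs_of_pos hπ, inv_mul_le_iff₀ hπ]
  have := intervalIntegral.norm_integral_le_of_norm_le_const (a := (0 : ℝ)) (b := 2 * Real.pi)
    (f := fun φ => inner ℂ (∑ w, (starRingEnd ℂ) (g w φ) • a w) (X φ (∑ i, h i φ • y i)))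
    (C := K * (‖a‖ * ‖y‖)) (fun φ hφ => by
      have hKφ := hK φ (uIoc_subset_uIcc hφ)
      have hK0 : 0 ≤ K := (norm_nonneg _).trans hKφ
      have h1 : ‖∑ w, (starRingEnd ℂ) (g w φ) • a w‖ ≤ ‖a‖ := by
        apply norm_comb
        simpa using hg1 φ
      have h2 : ‖∑ i, h i φ • y i‖ ≤ ‖y‖ := norm_comb _ (hh1 φ) y
      calc ‖inner ℂ (∑ w, (starRingEnd ℂ) (g w φ) • a w) (X φ (∑ i, h i φ • y i))‖
          ≤ ‖∑ w, (starRingEnd ℂ) (g w φ) • a w‖ * ‖X φ (∑ i, h i φ • y i)‖ :=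
            norm_inner_le_norm _ _
        _ ≤ ‖a‖ * (‖X φ‖ * ‖∑ i, h i φ • y i‖) := by
            gcongr
            exact (X φ).le_opNorm _
        _ ≤ ‖a‖ * (K * ‖y‖) := by gcongr
        _ = K * (‖a‖ * ‖y‖) := by ring)
  rw [sub_zero, abs_of_pos hπ] at this
  linarith

/-- the semidefinite form of `X` contracts combinations -/
theorem form_comb {W : Type} [Fintype W] (X : H →L[ℂ] H) (hX : ∀ u, 0 ≤ (inner ℂ u (X u)).re)
    (g : W → ℂ) (hg : ∑ w, ‖g w‖ ^ 2 ≤ 1) (a : W → H) :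
    (inner ℂ (∑ w, g w • a w) (X (∑ w, g w • a w))).re ≤ ∑ w, (inner ℂ (a w) (X (a w))).re := by
  set β := ∑ w, g w • a w with hβ
  have h1 : ∀ w, 0 ≤ (inner ℂ (a w - (starRingEnd ℂ) (g w) • β)
      (X (a w - (starRingEnd ℂ) (g w) • β))).re := fun w => hX _
  have h2 : ∀ w, (inner ℂ (a w - (starRingEnd ℂ) (g w) • β)
      (X (a w - (starRingEnd ℂ) (g w) • β))).re =
      (inner ℂ (a w) (X (a w))).re - (inner ℂ (g w • a w) (X β)).re
        - (inner ℂ β (X (g w • a w))).re + ‖g w‖ ^ 2 * (inner ℂ β (X β)).re := by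
    intro w
    have e : inner ℂ (a w - (starRingEnd ℂ) (g w) • β) (X (a w - (starRingEnd ℂ) (g w) • β)) =
        inner ℂ (a w) (X (a w)) - inner ℂ (g w • a w) (X β) - inner ℂ β (X (g w • a w)) +
        ((‖g w‖ ^ 2 : ℝ) : ℂ) * inner ℂ β (X β) := by
      have e0 : (((‖g w‖ ^ 2 : ℝ) : ℂ)) = g w * (starRingEnd ℂ) (g w) := by
        rw [mul_conj, normSq_eq_norm_sq]
      rw [e0]
      simp only [map_sub, map_smul, inner_sub_left, inner_sub_right, inner_smul_left,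
        inner_smul_right, RCLike.conj_conj]
      ring
    rw [e, add_re, sub_re, sub_re, re_ofReal_mul]
  have h3 : 0 ≤ ∑ w, ((inner ℂ (a w) (X (a w))).re - (inner ℂ (g w • a w) (X β)).re
        - (inner ℂ β (X (g w • a w))).re + ‖g w‖ ^ 2 * (inner ℂ β (X β)).re) := by
    apply Finset.sum_nonneg
    intro w _
    rw [← h2]
    exact h1 w
  rw [Finset.sum_add_distrib, Finset.sum_sub_distrib, Finset.sum_sub_distrib, ← Finset.sum_mul,
    ← re_sum, ← re_sum, ← re_sum, ← sum_inner, ← inner_sum, ← map_sum, ← hβ, re_sum] at h3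
  have h4 : (∑ w, ‖g w‖ ^ 2) * (inner ℂ β (X β)).re ≤ 1 * (inner ℂ β (X β)).re :=
    mul_le_mul_of_nonneg_right hg (hX β)
  linarith

/-- pointwise positivity -/
theorem point_nonneg {W ι : Type} [Fintype W] [Fintype ι] (X : H →L[ℂ] H)
    (hX : ∀ u, 0 ≤ (inner ℂ u (X u)).re) (u : W → ℂ) (hu : ∑ w, ‖u w‖ ^ 2 ≤ 1) (z : ι → ℂ)
    (hz : ∑ i, ‖z i‖ ^ 2 ≤ 1) (a : W → H) (b : H) (c : ι → H) :
    0 ≤ ((∑ w, inner ℂ (a w) (X (a w))) + inner ℂ b (X b) + (∑ i, inner ℂ (c i) (X (c i)))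
      + (inner ℂ b (X (∑ w, u w • a w)) + inner ℂ (∑ w, u w • a w) (X b))
      + (inner ℂ (∑ i, (starRingEnd ℂ) (z i) • c i) (X (∑ w, u w • a w))
        + inner ℂ (∑ w, u w • a w) (X (∑ i, (starRingEnd ℂ) (z i) • c i)))
      + (inner ℂ (∑ i, (starRingEnd ℂ) (z i) • c i) (X b)
        + inner ℂ b (X (∑ i, (starRingEnd ℂ) (z i) • c i)))).re := by
  have h1 := form_comb X hX u hu a
  have h2 := form_comb X hX (fun i => (starRingEnd ℂ) (z i)) (by simpa using hz) c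
  set α := ∑ w, u w • a w
  set η := ∑ i, (starRingEnd ℂ) (z i) • c i
  have h3 := hX (α + b + η)
  simp only [map_add, inner_add_left, inner_add_right, add_re, re_sum] at h3 ⊢
  linarith

/-- the integral of a function with nonnegative real part -/
theorem re_mean_nonneg (F : ℝ → ℂ) (hF : Continuous F) (h : ∀ φ, 0 ≤ (F φ).re) :
    0 ≤ ((((2 * Real.pi : ℝ) : ℂ))⁻¹ * ∫ φ in (0 : ℝ)..(2 * Real.pi), F φ).re := by
  have hπ : (0 : ℝ) < 2 * Real.pi := by positivity
  have e := ContinuousLinearMap.intervalIntegral_comp_comm Complex.reCLM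
      (f := F) (a := (0 : ℝ)) (b := 2 * Real.pi) (μ := volume)
      (hF.intervalIntegrable _ _)
  rw [← ofReal_inv, re_ofReal_mul]
  apply mul_nonneg (by positivity)
  have e2 : (∫ φ in (0 : ℝ)..(2 * Real.pi), F φ).re =
      ∫ φ in (0 : ℝ)..(2 * Real.pi), (F φ).re := e.symm
  rw [e2]
  exact intervalIntegral.integral_nonneg hπ.le fun φ _ => h φ

theorem int9c {x y : ℝ} {f1 f2 f3 f4 f5 f6 f7 f8 f9 : ℝ → ℂ}
    (h1 : Continuous f1) (h2 : Continuous f2) (h3 : Continuous f3) (h4 : Continuous f4)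
    (h5 : Continuous f5) (h6 : Continuous f6) (h7 : Continuous f7) (h8 : Continuous f8)
    (h9 : Continuous f9) :
    ∫ t in x..y, (f1 t + f2 t + f3 t + (f4 t + f5 t) + (f6 t + f7 t) + (f8 t + f9 t)) =
      (∫ t in x..y, f1 t) + (∫ t in x..y, f2 t) + (∫ t in x..y, f3 t)
        + ((∫ t in x..y, f4 t) + (∫ t in x..y, f5 t))
        + ((∫ t in x..y, f6 t) + (∫ t in x..y, f7 t))
        + ((∫ t in x..y, f8 t) + (∫ t in x..y, f9 t)) := by
  have i {f : ℝ → ℂ} (hf : Continuous f) : IntervalIntegrable f volume x y :=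
    hf.intervalIntegrable _ _
  rw [intervalIntegral.integral_add (((((i h1).add (i h2)).add (i h3)).add ((i h4).add (i h5))).add
      ((i h6).add (i h7))) ((i h8).add (i h9)),
    intervalIntegral.integral_add ((((i h1).add (i h2)).add (i h3)).add ((i h4).add (i h5)))
      ((i h6).add (i h7)),
    intervalIntegral.integral_add (((i h1).add (i h2)).add (i h3)) ((i h4).add (i h5)),
    intervalIntegral.integral_add ((i h1).add (i h2)) (i h3),
    intervalIntegral.integral_add (i h1) (i h2),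
    intervalIntegral.integral_add (i h4) (i h5), intervalIntegral.integral_add (i h6) (i h7),
    intervalIntegral.integral_add (i h8) (i h9)]

section pos

variable [CompleteSpace H] {W ι : Type} [Fintype W] [Fintype ι]

theorem bil_right (X : ℝ → H →L[ℂ] H)
    (hX : Continuous X) (h : ι → ℝ → ℂ) (hh : ∀ i, Continuous (h i)) (a : H) (y : ι → H) :
    ∑ i, inner ℂ a (J X (h i) (y i)) =
      (((2 * Real.pi : ℝ) : ℂ))⁻¹ * ∫ φ in (0 : ℝ)..(2 * Real.pi),
        inner ℂ a (X φ (∑ i, h i φ • y i)) := by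
  have e1 : ∀ φ, inner ℂ a (X φ (∑ i, h i φ • y i)) =
      ∑ i, h i φ * inner ℂ a (X φ (y i)) := by
    intro φ
    rw [map_sum, inner_sum]
    refine Finset.sum_congr rfl fun i _ => ?_
    rw [map_smul, inner_smul_right]
  simp only [e1]
  rw [intervalIntegral.integral_finsetSum (fun i _ => by
    apply Continuous.intervalIntegrable
    have := hh i
    fun_prop)]
  rw [Finset.mul_sum]
  refine Finset.sum_congr rfl fun i _ => ?_
  rw [J_inner X hX _ (hh i)]

theorem bil_left (X : ℝ → H →L[ℂ] H)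
    (hX : Continuous X) (g : W → ℝ → ℂ) (hg : ∀ w, Continuous (g w)) (a : W → H) (y : H) :
    ∑ w, inner ℂ (a w) (J X (g w) y) =
      (((2 * Real.pi : ℝ) : ℂ))⁻¹ * ∫ φ in (0 : ℝ)..(2 * Real.pi),
        inner ℂ (∑ w, (starRingEnd ℂ) (g w φ) • a w) (X φ y) := by
  have e1 : ∀ φ, inner ℂ (∑ w, (starRingEnd ℂ) (g w φ) • a w) (X φ y) =
      ∑ w, g w φ * inner ℂ (a w) (X φ y) := by
    intro φ
    rw [sum_inner]
    refine Finset.sum_congr rfl fun w _ => ?_
    rw [inner_smul_left, RCLike.conj_conj]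
  simp only [e1]
  rw [intervalIntegral.integral_finsetSum (fun w _ => by
    apply Continuous.intervalIntegrable
    have := hg w
    fun_prop)]
  rw [Finset.mul_sum]
  refine Finset.sum_congr rfl fun w _ => ?_
  rw [J_inner X hX _ (hg w)]

theorem bil_diag (X : ℝ → H →L[ℂ] H) (hX : Continuous X) (a : W → H) :
    ∑ w, inner ℂ (a w) (J X (fun _ => 1) (a w)) =
      (((2 * Real.pi : ℝ) : ℂ))⁻¹ * ∫ φ in (0 : ℝ)..(2 * Real.pi),
        ∑ w, inner ℂ (a w) (X φ (a w)) := by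
  rw [intervalIntegral.integral_finsetSum (fun w _ => by
    apply Continuous.intervalIntegrable
    fun_prop)]
  rw [Finset.mul_sum]
  refine Finset.sum_congr rfl fun w _ => ?_
  rw [J_inner X hX _ continuous_const]
  simp

/-- integrated positivity -/
theorem int_nonneg (X : ℝ → H →L[ℂ] H) (hX : Continuous X)
    (hXre : ∀ φ u, 0 ≤ (inner ℂ u (X φ u)).re) (hX1 : J X (fun _ => 1) = 1)
    (u : W → ℝ → ℂ) (hu : ∀ w, Continuous (u w)) (hu1 : ∀ φ, ∑ w, ‖u w φ‖ ^ 2 ≤ 1)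
    (z : ι → ℝ → ℂ) (hz : ∀ i, Continuous (z i)) (hz1 : ∀ φ, ∑ i, ‖z i φ‖ ^ 2 ≤ 1)
    (a : E W H) (b : H) (c : E ι H) :
    0 ≤ ((∑ w, inner ℂ (a w) (a w)) + inner ℂ b b + (∑ i, inner ℂ (c i) (c i))
      + ((∑ w, inner ℂ b (J X (u w) (a w)))
        + ∑ w, inner ℂ (a w) (J X (fun φ => (starRingEnd ℂ) (u w φ)) b))
      + ((∑ i, ∑ w, inner ℂ (c i) (J X (fun φ => z i φ * u w φ) (a w)))
        + ∑ w, ∑ i, inner ℂ (a w)
          (J X (fun φ => (starRingEnd ℂ) (u w φ) * (starRingEnd ℂ) (z i φ)) (c i)))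
      + ((∑ i, inner ℂ (c i) (J X (z i) b))
        + ∑ i, inner ℂ b (J X (fun φ => (starRingEnd ℂ) (z i φ)) (c i)))).re := by
  have hcu : ∀ w, Continuous (fun φ => (starRingEnd ℂ) (u w φ)) := fun w =>
    continuous_conj.comp (hu w)
  have hcz : ∀ i, Continuous (fun φ => (starRingEnd ℂ) (z i φ)) := fun i =>
    continuous_conj.comp (hz i)
  have d1 := bil_diag X hX (fun w => a w)
  have d2 := bil_diag X hX (fun _ : Unit => b)
  have d3 := bil_diag X hX (fun i => c i)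
  rw [hX1] at d1 d2 d3
  simp only [ContinuousLinearMap.one_apply] at d1 d2 d3
  simp only [Finset.univ_unique, Finset.sum_singleton] at d2
  have d4 := bil_right X hX u hu b (fun w => a w)
  have d5 := bil_left X hX (fun w φ => (starRingEnd ℂ) (u w φ)) hcu (fun w => a w) b
  have d6 := bil_int X hX z hz u hu c a
  have d7 := bil_int X hX (fun w φ => (starRingEnd ℂ) (u w φ)) hcu
    (fun i φ => (starRingEnd ℂ) (z i φ)) hcz a c
  have d8 := bil_left X hX z hz (fun i => c i) b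
  have d9 := bil_right X hX (fun i φ => (starRingEnd ℂ) (z i φ)) hcz b (fun i => c i)
  simp only [RCLike.conj_conj] at d5 d7
  rw [d1, d2, d3, d4, d5, d6, d7, d8, d9]
  have hS : ∀ (W : Type) [Fintype W] (g : W → ℝ → ℂ) (a : W → H), (∀ w, Continuous (g w)) →
      Continuous (fun φ => ∑ w, g w φ • a w) := by
    intro W _ g a hg
    exact continuous_finsetSum _ fun w _ => (hg w).smul continuous_const
  have c1 := hS W u (fun w => a w) hu
  have c2 := hS ι (fun i φ => (starRingEnd ℂ) (z i φ)) (fun i => c i) hcz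
  have key := int9c (x := 0) (y := 2 * Real.pi)
    (f1 := fun φ => ∑ w, inner ℂ (a w) (X φ (a w))) (f2 := fun φ => inner ℂ b (X φ b))
    (f3 := fun φ => ∑ i, inner ℂ (c i) (X φ (c i)))
    (f4 := fun φ => inner ℂ b (X φ (∑ w, u w φ • a w)))
    (f5 := fun φ => inner ℂ (∑ w, u w φ • a w) (X φ b))
    (f6 := fun φ => inner ℂ (∑ i, (starRingEnd ℂ) (z i φ) • c i) (X φ (∑ w, u w φ • a w)))
    (f7 := fun φ => inner ℂ (∑ w, u w φ • a w) (X φ (∑ i, (starRingEnd ℂ) (z i φ) • c i)))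
    (f8 := fun φ => inner ℂ (∑ i, (starRingEnd ℂ) (z i φ) • c i) (X φ b))
    (f9 := fun φ => inner ℂ b (X φ (∑ i, (starRingEnd ℂ) (z i φ) • c i)))
    (continuous_finsetSum _ fun w _ => by fun_prop) (by fun_prop)
    (continuous_finsetSum _ fun w _ => by fun_prop)
    (by fun_prop) (by fun_prop) (by fun_prop) (by fun_prop) (by fun_prop) (by fun_prop)
  rw [← mul_add, ← mul_add, ← mul_add, ← mul_add, ← mul_add, ← mul_add, ← mul_add, ← mul_add,
    ← key]
  apply re_mean_nonneg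
  · have e1 : Continuous (fun φ => ∑ w, inner ℂ (a w) (X φ (a w))) :=
      continuous_finsetSum _ fun w _ => by fun_prop
    have e3 : Continuous (fun φ => ∑ i, inner ℂ (c i) (X φ (c i))) :=
      continuous_finsetSum _ fun w _ => by fun_prop
    fun_prop
  · intro φ
    exact point_nonneg (X φ) (hXre φ) (fun w => u w φ) (hu1 φ) (fun i => z i φ) (hz1 φ)
      (fun w => a w) b (fun i => c i)

end pos

end Pool.Agent.H884.CR
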