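import Pool.Graph.R_seed8.W753.CZ.Core

/-!
# The abstract core for columns

`T : H → K` is an operator between two Hilbert spaces (a column), `U k : L k → H` are rows,
`G k : H → L k` and `G' k : K → L k`. Toeplitz positivity on three indices forces `‖T‖ ≤ 2`. The
library theorem `Pool.Agent.W753.CZ.core` is the case `K = L k = H`, `U k = T ^ k`, in which everything
commutes.
-/

set_option autoImplicit false

open ContinuousLinearMap

namespace Pool.Agent.H884.CR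

open Pool.Agent.W753.CZ

universe u v w

variable {H : Type u} {K : Type v} [NormedAddCommGroup H] [InnerProductSpace ℂ H] [CompleteSpace H]
  [NormedAddCommGroup K] [InnerProductSpace ℂ K] [CompleteSpace K]

theorem core (L : ℕ → Type w) [∀ k, NormedAddCommGroup (L k)] [∀ k, InnerProductSpace ℂ (L k)]
    [∀ k, CompleteSpace (L k)]
    (T : H →L[ℂ] K) (U : ∀ k, L k →L[ℂ] H) (G : ∀ k, H →L[ℂ] L k) (G' : ∀ k, K →L[ℂ] L k)
    (G1 : K →L[ℂ] H) (B : ℝ) (hB : ∀ k, ∀ y, ‖U k (G' k y)‖ ≤ B * ‖y‖) (hB1 : ∀ y, ‖G1 y‖ ≤ B * ‖y‖)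
    (hΓ : ∀ k, ∀ x, U k (G' k (T x)) = U (k + 1) (G (k + 1) x))
    (h0 : ∀ x, G1 (T x) = U 1 (G 1 x))
    (hpos : ∀ k, 1 ≤ k → ∀ (a : L k) (b : H) (c : K),
      0 ≤ ‖a‖ ^ 2 + ‖b‖ ^ 2 + ‖c‖ ^ 2 + ((inner ℂ b (U k a)).re + (inner ℂ a (G k b)).re)
        + ((inner ℂ c (T (U k a))).re + (inner ℂ a (G' k c)).re)
        + ((inner ℂ c (T b)).re + (inner ℂ b (G1 c)).re)) :
    ‖T‖ ≤ 2 := by
  by_contra hcon
  push Not at hcon
  set κ := ‖T‖ with hκ
  have hκ0 : 0 < κ := by linarith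
  have hκ1 : 0 < κ - 1 := by linarith
  -- we may enlarge `B`
  obtain ⟨B', hB'0, hBB'⟩ : ∃ B' : ℝ, 0 ≤ B' ∧ B ≤ B' := ⟨max B 0, le_max_right _ _, le_max_left _ _⟩
  have hBx : ∀ k, ∀ y, ‖U k (G' k y)‖ ≤ B' * ‖y‖ := fun k y =>
    (hB k y).trans (by gcongr)
  have hB1x : ∀ y, ‖G1 y‖ ≤ B' * ‖y‖ := fun y => (hB1 y).trans (by gcongr)
  clear hB hB1
  -- choose the small parameter
  set q : ℝ := min 1 ((κ - 2) / (4 * (κ - 1 + κ * B'))) with hq
  have hD : 0 < κ - 1 + κ * B' := by positivity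
  have hq0 : 0 < q := by
    rw [hq]; apply lt_min one_pos; apply div_pos <;> linarith
  have hq1 : q ≤ 1 := min_le_left _ _
  have hq2 : 2 * ((κ - 1 + κ * B') * q) < κ - 2 := by
    have : q ≤ (κ - 2) / (4 * (κ - 1 + κ * B')) := min_le_right _ _
    calc 2 * ((κ - 1 + κ * B') * q)
        ≤ 2 * ((κ - 1 + κ * B') * ((κ - 2) / (4 * (κ - 1 + κ * B')))) := by gcongr
      _ = (κ - 2) / 2 := by field_simp; ring
      _ < κ - 2 := by linarith
  have hr : κ * (1 - q ^ 2) < ‖adjoint T‖ := by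
    rw [LinearIsometryEquiv.norm_map, ← hκ]
    nlinarith [mul_pos hκ0 (pow_pos hq0 2)]
  obtain ⟨y, hy1, hy2⟩ := ContinuousLinearMap.exists_lt_apply_of_lt_opNorm (adjoint T) hr
  set x : H := ((κ⁻¹ : ℝ) : ℂ) • (adjoint T) y with hx
  have hTy : (adjoint T) y = ((κ : ℝ) : ℂ) • x := by
    rw [hx, smul_smul, ← Complex.ofReal_mul, mul_inv_cancel₀ hκ0.ne', Complex.ofReal_one, one_smul]
  set s := ‖x‖ ^ 2 with hs
  have hxn : ‖x‖ = κ⁻¹ * ‖(adjoint T) y‖ := by
    rw [hx, norm_smul, Complex.norm_real, Real.norm_of_nonneg (by positivity)]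
  have hx1 : ‖x‖ ≤ 1 := by
    rw [hxn]
    have : ‖(adjoint T) y‖ ≤ κ * 1 := by
      refine ((adjoint T).le_opNorm y).trans ?_
      rw [LinearIsometryEquiv.norm_map, ← hκ]
      gcongr
    calc κ⁻¹ * ‖(adjoint T) y‖ ≤ κ⁻¹ * (κ * 1) := by gcongr
      _ = 1 := by field_simp
  have hxl : 1 - q ^ 2 < ‖x‖ := by
    rw [hxn]
    calc 1 - q ^ 2 = κ⁻¹ * (κ * (1 - q ^ 2)) := by field_simp
      _ < κ⁻¹ * ‖(adjoint T) y‖ := by gcongr
  have hq21 : 0 ≤ 1 - q ^ 2 := by nlinarith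
  have hs1 : s ≤ 1 := by rw [hs]; nlinarith [norm_nonneg x]
  have hsl : 1 - 2 * q ^ 2 ≤ s := by
    rw [hs]
    nlinarith [norm_nonneg x, sq_nonneg (q ^ 2)]
  -- the error vector
  set e : K := y - ((κ⁻¹ : ℝ) : ℂ) • T x with he
  have hyx : (inner ℂ y (T x)).re = κ * s := by
    rw [← adjoint_inner_left, hTy, inner_smul_left, Complex.conj_ofReal, Complex.re_ofReal_mul, hs]
    congr 1
    exact inner_self_eq_norm_sq (𝕜 := ℂ) x
  have hTx : ‖T x‖ ^ 2 ≤ κ ^ 2 * s := by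
    rw [hs, ← mul_pow]
    gcongr
    exact T.le_opNorm x
  have hesq : ‖e‖ ^ 2 ≤ 1 - s := by
    have h1 := norm_sub_sq (𝕜 := ℂ) y (((κ⁻¹ : ℝ) : ℂ) • T x)
    rw [← he] at h1
    rw [h1, inner_smul_right, norm_smul, Complex.norm_real,
      Real.norm_of_nonneg (by positivity : (0:ℝ) ≤ κ⁻¹)]
    have h2 : RCLike.re (((κ⁻¹ : ℝ) : ℂ) * inner ℂ y (T x)) = s := by
      have : RCLike.re (((κ⁻¹ : ℝ) : ℂ) * inner ℂ y (T x)) = κ⁻¹ * (inner ℂ y (T x)).re := by
        rw [RCLike.re_eq_complex_re, Complex.re_ofReal_mul]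
      rw [this, hyx]; field_simp
    rw [h2]
    have h3 : (κ⁻¹ * ‖T x‖) ^ 2 ≤ s := by
      rw [mul_pow]
      calc κ⁻¹ ^ 2 * ‖T x‖ ^ 2 ≤ κ⁻¹ ^ 2 * (κ ^ 2 * s) := by gcongr
        _ = s := by field_simp
    have h4 : ‖y‖ ^ 2 ≤ 1 := by nlinarith [norm_nonneg y]
    linarith
  have he2 : ‖e‖ ≤ 2 * q := by
    apply abs_le_of_sq_le_sq' _ (by positivity) |>.2
    nlinarith
  have hydec : y = ((κ⁻¹ : ℝ) : ℂ) • T x + e := by rw [he]; abel
  set γ : ℕ → ℝ := fun k => (inner ℂ x (U k (G k x))).re with hγ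
  -- the error estimates
  have herr : ∀ k, |(inner ℂ x (U k (G' k y))).re - γ (k + 1) / κ| ≤ B' * ‖e‖ := by
    intro k
    have h1 : U k (G' k y) = ((κ⁻¹ : ℝ) : ℂ) • U (k + 1) (G (k + 1) x) + U k (G' k e) := by
      conv_lhs => rw [hydec]
      rw [map_add, map_add, map_smul, map_smul, hΓ]
    rw [h1, inner_add_right, inner_smul_right, Complex.add_re, Complex.re_ofReal_mul]
    have h3 : κ⁻¹ * (inner ℂ x (U (k + 1) (G (k + 1) x))).re + (inner ℂ x (U k (G' k e))).re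
        - γ (k + 1) / κ = (inner ℂ x (U k (G' k e))).re := by
      rw [hγ]; field_simp; ring
    rw [h3]
    calc |(inner ℂ x (U k (G' k e))).re| ≤ ‖inner ℂ x (U k (G' k e))‖ := Complex.abs_re_le_norm _
      _ ≤ ‖x‖ * ‖U k (G' k e)‖ := norm_inner_le_norm _ _
      _ ≤ 1 * (B' * ‖e‖) := by
          gcongr
          exact hBx k e
      _ = B' * ‖e‖ := one_mul _
  have herr1 : |(inner ℂ x (G1 y)).re - γ 1 / κ| ≤ B' * ‖e‖ := by
    have h1 : G1 y = ((κ⁻¹ : ℝ) : ℂ) • U 1 (G 1 x) + G1 e := by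
      conv_lhs => rw [hydec]
      rw [map_add, map_smul, h0]
    rw [h1, inner_add_right, inner_smul_right, Complex.add_re, Complex.re_ofReal_mul]
    have h3 : κ⁻¹ * (inner ℂ x (U 1 (G 1 x))).re + (inner ℂ x (G1 e)).re
        - γ 1 / κ = (inner ℂ x (G1 e)).re := by
      rw [hγ]; field_simp; ring
    rw [h3]
    calc |(inner ℂ x (G1 e)).re| ≤ ‖inner ℂ x (G1 e)‖ := Complex.abs_re_le_norm _
      _ ≤ ‖x‖ * ‖G1 e‖ := norm_inner_le_norm _ _
      _ ≤ 1 * (B' * ‖e‖) := by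
          gcongr
          exact hB1x e
      _ = B' * ‖e‖ := one_mul _
  set b0 : ℝ := 1 + (1 - κ) * s + κ * B' * ‖e‖ with hb0
  have hb0neg : b0 < 0 := by
    have h1 : (κ - 1) * (1 - s) ≤ (κ - 1) * (2 * q) := by
      gcongr; nlinarith
    have h2 : κ * B' * ‖e‖ ≤ κ * B' * (2 * q) := by gcongr
    rw [hb0]; nlinarith
  have hy2' : ‖y‖ ^ 2 ≤ 1 := by nlinarith [norm_nonneg y]
  -- the terms with c = y, b = -x
  have hcb : (inner ℂ y (T (-x))).re + (inner ℂ (-x) (G1 y)).re ≤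
      -(κ * s) - γ 1 / κ + B' * ‖e‖ := by
    rw [map_neg, inner_neg_right, Complex.neg_re, hyx, inner_neg_left, Complex.neg_re]
    have := (abs_le.mp herr1).1
    linarith
  have hδ0 : 0 ≤ b0 - γ 1 / κ := by
    have h := hpos 1 le_rfl 0 (-x) y
    rw [map_zero, inner_zero_right, inner_zero_left, norm_zero, norm_neg, map_zero,
      inner_zero_right, inner_zero_left, Complex.zero_re] at h
    have h4 : B' * ‖e‖ ≤ κ * B' * ‖e‖ := by
      have h6 : 0 ≤ B' * ‖e‖ := by positivity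
      calc B' * ‖e‖ = 1 * (B' * ‖e‖) := by ring
        _ ≤ κ * (B' * ‖e‖) := by gcongr; linarith
        _ = κ * B' * ‖e‖ := by ring
    have h5 : ‖x‖ ^ 2 = s := rfl
    have h7 : (1 - κ) * s = s - κ * s := by ring
    rw [h5] at h
    rw [hb0, h7]
    have h8 : (0 : ℝ) ^ 2 = 0 := by norm_num
    rw [h8] at h
    linarith
  refine recursion_false κ b0 (κ * B') γ hcon hb0neg hδ0 ?_ ?_
  · intro k hk
    set t : ℝ := 1 - 1 / κ with ht
    have htκ : t * κ = κ - 1 := by rw [ht]; field_simp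
    set v : L k := adjoint (U k) x with hv
    have h := hpos k hk (-(((κ - 1 : ℝ) : ℂ) • v)) (-x) y
    have hv1 : inner ℂ x (U k v) = ((‖v‖ ^ 2 : ℝ) : ℂ) := by
      rw [← adjoint_inner_left, ← hv, inner_self_eq_norm_sq_to_K]
      push_cast; rfl
    have hg1 : (inner ℂ v (G k x)).re = γ k := by
      rw [hv, adjoint_inner_left]
    have hv2 : inner ℂ y (T (U k v)) = ((κ * ‖v‖ ^ 2 : ℝ) : ℂ) := by
      rw [← adjoint_inner_left, hTy, inner_smul_left, hv1, Complex.conj_ofReal]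
      push_cast; rfl
    have hg2 : (inner ℂ v (G' k y)).re ≥ γ (k + 1) / κ - B' * ‖e‖ := by
      rw [hv, adjoint_inner_left]
      have := (abs_le.mp (herr k)).1
      linarith
    have hna : ‖-(((κ - 1 : ℝ) : ℂ) • v)‖ ^ 2 = (κ - 1) ^ 2 * ‖v‖ ^ 2 := by
      rw [norm_neg, norm_smul, Complex.norm_real, Real.norm_of_nonneg hκ1.le, mul_pow]
    have hI1 : (inner ℂ (-x) (U k (-(((κ - 1 : ℝ) : ℂ) • v)))).re = (κ - 1) * ‖v‖ ^ 2 := by
      rw [map_neg, inner_neg_neg, map_smul, inner_smul_right, Complex.re_ofReal_mul, hv1,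
        Complex.ofReal_re]
    have hI1' : (inner ℂ (-(((κ - 1 : ℝ) : ℂ) • v)) (G k (-x))).re = (κ - 1) * γ k := by
      rw [map_neg, inner_neg_neg, inner_smul_left, Complex.conj_ofReal, Complex.re_ofReal_mul, hg1]
    have hI2 : (inner ℂ y (T (U k (-(((κ - 1 : ℝ) : ℂ) • v))))).re =
        -((κ - 1) * (κ * ‖v‖ ^ 2)) := by
      rw [map_neg, map_neg, inner_neg_right, Complex.neg_re, map_smul, map_smul, inner_smul_right,
        Complex.re_ofReal_mul, hv2, Complex.ofReal_re]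
    have hI2' : (inner ℂ (-(((κ - 1 : ℝ) : ℂ) • v)) (G' k y)).re ≤
        -((κ - 1) * (γ (k + 1) / κ - B' * ‖e‖)) := by
      rw [inner_neg_left, Complex.neg_re, inner_smul_left, Complex.conj_ofReal,
        Complex.re_ofReal_mul]
      gcongr
    rw [hna, hI1, hI1', hI2, norm_neg] at h
    have h5 : ‖x‖ ^ 2 = s := rfl
    rw [h5] at h
    have e1 : t * (γ (k + 1) - κ * γ k) = (κ - 1) * (γ (k + 1) / κ) - (κ - 1) * γ k := by
      have : t = (κ - 1) / κ := by rw [ht]; field_simp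
      rw [this]; field_simp
    rw [e1, hb0]
    have e3 : -((κ - 1) * (γ (k + 1) / κ - B' * ‖e‖)) =
        - (κ - 1) * (γ (k + 1) / κ) + (κ * B' * ‖e‖ - B' * ‖e‖) := by ring
    have e4 : (1 - κ) * s = s - κ * s := by ring
    have e5 : (κ - 1) ^ 2 * ‖v‖ ^ 2 + (κ - 1) * ‖v‖ ^ 2 - (κ - 1) * (κ * ‖v‖ ^ 2) = 0 := by ring
    rw [e3] at hI2'
    rw [e4]
    linarith
  · intro k
    rcases Nat.eq_zero_or_pos k with rfl | hk
    · have h1 : |γ (0 + 1)| ≤ κ * B' := by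
        calc |γ (0 + 1)| ≤ ‖inner ℂ x (U 1 (G 1 x))‖ := Complex.abs_re_le_norm _
          _ ≤ ‖x‖ * ‖U 1 (G 1 x)‖ := norm_inner_le_norm _ _
          _ ≤ 1 * (B' * (κ * 1)) := by
              gcongr
              rw [← h0]
              refine (hB1x _).trans ?_
              gcongr
              refine (T.le_opNorm x).trans ?_
              rw [← hκ]
              gcongr
          _ = κ * B' := by ring
      exact (abs_le.mp h1).1
    · have h1 : |γ (k + 1)| ≤ κ * B' := by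
        calc |γ (k + 1)| ≤ ‖inner ℂ x (U (k + 1) (G (k + 1) x))‖ := Complex.abs_re_le_norm _
          _ ≤ ‖x‖ * ‖U (k + 1) (G (k + 1) x)‖ := norm_inner_le_norm _ _
          _ ≤ 1 * (B' * (κ * 1)) := by
              gcongr
              rw [← hΓ]
              refine (hBx k _).trans ?_
              gcongr
              refine (T.le_opNorm x).trans ?_
              rw [← hκ]
              gcongr
          _ = κ * B' := by ring
      exact (abs_le.mp h1).1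

end Pool.Agent.H884.CR
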