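import Pool.Agent.H884.CR.Words
import Pool.Graph.R_seed8.W753.CZ.Crouzeix

/-!
# The column form of Crouzeix's conjecture
-/

set_option autoImplicit false

open MeasureTheory Set Filter Topology Polynomial

namespace Pool.Agent.H884.CR

open Pool.Agent Pool.Agent.W753.CZ

universe u

variable {ι : Type} [Fintype ι]
  {H : Type u} [NormedAddCommGroup H] [InnerProductSpace ℂ H] [CompleteSpace H]

/-- **The column form of Crouzeix's conjecture** (constant `2`), for bounded operators on a nonzero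
Hilbert space. -/
theorem crouzeix_column [Nontrivial H] (A : H →L[ℂ] H) (p : ι → ℂ[X]) (M : ℝ) (hM0 : 0 ≤ M)
    (hM : ∀ w ∈ numRange A, ∑ i, ‖(p i).eval w‖ ^ 2 ≤ M ^ 2) :
    ∀ x : H, ∑ i, ‖aeval A (p i) x‖ ^ 2 ≤ (2 * M) ^ 2 * ‖x‖ ^ 2 := by
  intro x
  set W := numRange A with hWd
  set R := ‖A‖ with hR
  have hR0 : 0 ≤ R := norm_nonneg _
  have hW : ∀ w ∈ W, ‖w‖ ≤ R := numRange_norm A
  have hne : W.Nonempty := numRange_nonempty A
  have hconv : Convex ℝ W := H640R2.PhaseMu.toeplitz_hausdorff A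
  obtain ⟨hb, hL, hper, hcos⟩ := supp_props hW hne
  have hnum : ∀ (φ : ℝ) (u : H), (Complex.exp (-φ * Complex.I) * inner ℂ u (A u)).re ≤
      supp W φ * ‖u‖ ^ 2 := by
    intro φ u
    by_cases hu : u = 0
    · simp [hu]
    have hn : ‖u‖ ≠ 0 := norm_ne_zero_iff.mpr hu
    set x : H := ((‖u‖⁻¹ : ℝ) : ℂ) • u with hx
    have hx1 : ‖x‖ = 1 := by
      rw [hx, norm_smul, Complex.norm_real, norm_inv, norm_norm, inv_mul_cancel₀ hn]
    have h1 := le_supp hW φ (w := inner ℂ x (A x)) ⟨x, hx1, rfl⟩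
    have h2 : inner ℂ x (A x) = (((‖u‖⁻¹) ^ 2 : ℝ) : ℂ) * inner ℂ u (A u) := by
      rw [hx, map_smul, inner_smul_left, inner_smul_right, Complex.conj_ofReal]
      push_cast
      ring
    rw [h2, mul_left_comm, Complex.re_ofReal_mul] at h1
    have h3 : 0 < ‖u‖ ^ 2 := by positivity
    calc (Complex.exp (-φ * Complex.I) * inner ℂ u (A u)).re =
        ((‖u‖⁻¹) ^ 2 * (Complex.exp (-φ * Complex.I) * inner ℂ u (A u)).re) * ‖u‖ ^ 2 := by
          field_simp
      _ ≤ supp W φ * ‖u‖ ^ 2 := by gcongr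
  suffices hsuf : ∀ ε > 0, Real.sqrt (∑ i, ‖aeval A (p i) x‖ ^ 2) ≤ (2 * M + ε) * ‖x‖ by
    have h0 : (0 : ℝ) ≤ ∑ i, ‖aeval A (p i) x‖ ^ 2 := by positivity
    have h1 : Real.sqrt (∑ i, ‖aeval A (p i) x‖ ^ 2) ≤ 2 * M * ‖x‖ := by
      refine le_of_forall_pos_le_add fun ε hε => ?_
      have hx : 0 < ‖x‖ + 1 := by positivity
      refine (hsuf (ε / (‖x‖ + 1)) (by positivity)).trans ?_
      have h2 : ε / (‖x‖ + 1) * ‖x‖ ≤ ε := by
        rw [div_mul_eq_mul_div, div_le_iff₀ hx]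
        nlinarith [norm_nonneg x]
      linarith
    calc ∑ i, ‖aeval A (p i) x‖ ^ 2 = Real.sqrt (∑ i, ‖aeval A (p i) x‖ ^ 2) ^ 2 :=
          (Real.sq_sqrt h0).symm
      _ ≤ (2 * M * ‖x‖) ^ 2 := pow_le_pow_left₀ (Real.sqrt_nonneg _) h1 2
      _ = _ := by ring
  intro ε hε
  set M' := M + ε / 2 with hM'
  have hM'0 : 0 < M' := by positivity
  have hpc : Continuous fun z : ℂ => ∑ i, ‖(p i).eval z‖ ^ 2 :=
    continuous_finsetSum _ fun i _ => by fun_prop
  have hU : IsOpen {z : ℂ | ∑ i, ‖(p i).eval z‖ ^ 2 < M' ^ 2} := isOpen_lt hpc continuous_const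
  have hK : IsCompact (closure W) := by
    apply Metric.isCompact_of_isClosed_isBounded isClosed_closure
    apply Bornology.IsBounded.closure
    rw [isBounded_iff_forall_norm_le]
    exact ⟨R, hW⟩
  have hsub : closure W ⊆ {z : ℂ | ∑ i, ‖(p i).eval z‖ ^ 2 < M' ^ 2} := by
    have h1 : closure W ⊆ {z : ℂ | ∑ i, ‖(p i).eval z‖ ^ 2 ≤ M ^ 2} :=
      closure_minimal hM (isClosed_le hpc continuous_const)
    intro z hz
    have : ∑ i, ‖(p i).eval z‖ ^ 2 ≤ M ^ 2 := h1 hz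
    show ∑ i, ‖(p i).eval z‖ ^ 2 < M' ^ 2
    have h2 : M < M' := by rw [hM']; linarith
    nlinarith
  obtain ⟨η, hη, hηs⟩ := hK.exists_cthickening_subset_open hU hsub
  rw [Metric.cthickening_closure] at hηs
  set δ := min 1 (η / (6 * R + 1)) with hδ
  have hδ0 : 0 < δ := lt_min one_pos (by positivity)
  have hδ1 : δ ≤ 1 := min_le_left _ _
  have hδη : (6 * R + 1) * δ ≤ η := by
    have : δ ≤ η / (6 * R + 1) := min_le_right _ _
    rw [le_div_iff₀ (by positivity)] at this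
    linarith
  obtain ⟨Hf, H1, H2, h1, h2, h2c, hp0, hp1, hρ, hlow, hup⟩ :=
    smooth_support (supp W) R hR0 hb hL hper hcos δ hδ0 hδ1
  have hev : ∀ φ, ∑ i, ‖(p i).eval (sg Hf H1 φ)‖ ^ 2 ≤ M' ^ 2 := by
    intro φ
    have hnear : Metric.infDist (sg Hf H1 φ) W ≤ η := by
      apply near_convex hW hne hconv _ hη.le
      intro ψ
      have := curve_support Hf H1 H2 h1 h2 hp0 hρ φ ψ
      linarith [hup ψ]
    have hmem : sg Hf H1 φ ∈ Metric.cthickening η W := by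
      rw [Metric.mem_cthickening_iff]
      rw [← ENNReal.ofReal_toReal (Metric.infEDist_ne_top hne)]
      exact ENNReal.ofReal_le_ofReal hnear
    exact (hηs hmem).le
  obtain ⟨hsc, X, hXc, hXre, hXA, hpoly⟩ := curve_kernel A Hf H1 H2 h1 h2 h2c
    (by have := hp0 0; rwa [zero_add] at this)
    (by have := hp1 0; rwa [zero_add] at this) hρ ((2 * R + 1) * δ) (by positivity)
    (fun φ u => by
      refine (hnum φ u).trans ?_
      gcongr
      linarith [hlow φ])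
  set f : ι → ℂ[X] := fun i => C ((M' : ℂ)⁻¹) * p i with hf
  have hf1 : ∀ φ, ∑ i, ‖(f i).eval (sg Hf H1 φ)‖ ^ 2 ≤ 1 := by
    intro φ
    have e : ∀ i, ‖(f i).eval (sg Hf H1 φ)‖ ^ 2 = (M' ^ 2)⁻¹ * ‖(p i).eval (sg Hf H1 φ)‖ ^ 2 := by
      intro i
      rw [hf]
      simp only [eval_mul, eval_C]
      rw [norm_mul, norm_inv, Complex.norm_real, Real.norm_eq_abs, abs_of_pos hM'0, mul_pow, inv_pow]
    simp only [e]
    rw [← Finset.mul_sum, inv_mul_le_iff₀ (by positivity), mul_one]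
    exact hev φ
  have hb := column_curve A (sg Hf H1) hsc X hXc hXre hXA hpoly f hf1
  have hx2 : ‖col (fun i => aeval A (f i)) x‖ ≤ 2 * ‖x‖ :=
    ((col (fun i => aeval A (f i))).le_opNorm x).trans (by gcongr)
  have hcol : ∀ i, aeval A (p i) x = (M' : ℂ) • aeval A (f i) x := by
    intro i
    rw [hf]
    simp only
    rw [map_mul, aeval_C, Algebra.algebraMap_eq_smul_one, smul_mul_assoc, one_mul, smul_apply,
      smul_smul, mul_inv_cancel₀ (by exact_mod_cast hM'0.ne'), one_smul]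
  have e1 : ∑ i, ‖aeval A (p i) x‖ ^ 2 = (M' * ‖col (fun i => aeval A (f i)) x‖) ^ 2 := by
    rw [mul_pow, PiLp.norm_sq_eq_of_L2, Finset.mul_sum]
    refine Finset.sum_congr rfl fun i _ => ?_
    rw [hcol, col_apply, norm_smul, Complex.norm_real, Real.norm_eq_abs, abs_of_pos hM'0, mul_pow]
  rw [e1, Real.sqrt_sq (by positivity)]
  calc M' * ‖col (fun i => aeval A (f i)) x‖ ≤ M' * (2 * ‖x‖) := by gcongr
    _ = (2 * M + ε) * ‖x‖ := by rw [hM']; ring

end Pool.Agent.H884.CR
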