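import Pool.Agent.H884.CR.Crouzeix
import Pool.Graph.R_pool_sql_team_seeded_620a6dc7.Helper324_QNR.Main

/-!
# The column form of the bound for scaled `q`-numerical ranges
-/

set_option autoImplicit false

open MeasureTheory Set Filter Topology Polynomial

namespace Pool.Agent.H884.CR

open Pool.Agent Pool.Agent.W753.CZ Pool.Agent.Helper324_QNR

universe u

variable {ι : Type} [Fintype ι]
  {H : Type u} [NormedAddCommGroup H] [InnerProductSpace ℂ H] [CompleteSpace H]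

/-- Cauchy–Schwarz for scalars -/
theorem cs_scalar (a b : ι → ℂ) : ‖∑ i, a i * b i‖ ^ 2 ≤ (∑ i, ‖a i‖ ^ 2) * ∑ i, ‖b i‖ ^ 2 := by
  have h1 : ‖∑ i, a i * b i‖ ≤ ∑ i, ‖a i‖ * ‖b i‖ := by
    refine (norm_sum_le _ _).trans (le_of_eq ?_)
    exact Finset.sum_congr rfl fun w _ => norm_mul _ _
  calc ‖∑ i, a i * b i‖ ^ 2 ≤ (∑ i, ‖a i‖ * ‖b i‖) ^ 2 := by gcongr
    _ ≤ _ := Finset.sum_mul_sq_le_sq_mul_sq _ _ _

omit [CompleteSpace H] in
/-- Cauchy–Schwarz for vectors -/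
theorem cs_vec (a : ι → ℂ) (b : ι → H) :
    ‖∑ i, a i • b i‖ ^ 2 ≤ (∑ i, ‖a i‖ ^ 2) * ∑ i, ‖b i‖ ^ 2 := by
  have h1 : ‖∑ i, a i • b i‖ ≤ ∑ i, ‖a i‖ * ‖b i‖ := by
    refine (norm_sum_le _ _).trans (le_of_eq ?_)
    exact Finset.sum_congr rfl fun w _ => norm_smul _ _
  calc ‖∑ i, a i • b i‖ ^ 2 ≤ (∑ i, ‖a i‖ * ‖b i‖) ^ 2 := by gcongr
    _ ≤ _ := Finset.sum_mul_sq_le_sq_mul_sq _ _ _

/-- the polynomial `∑ a_i p_i` -/
noncomputable def comb (a : ι → ℂ) (p : ι → ℂ[X]) : ℂ[X] := ∑ i, C (a i) * p i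

theorem comb_eval (a : ι → ℂ) (p : ι → ℂ[X]) (z : ℂ) :
    (comb a p).eval z = ∑ i, a i * (p i).eval z := by
  simp [comb, eval_finsetSum]

omit [CompleteSpace H] in
theorem comb_aeval (a : ι → ℂ) (p : ι → ℂ[X]) (A : H →L[ℂ] H) (x : H) :
    aeval A (comb a p) x = ∑ i, a i • aeval A (p i) x := by
  rw [comb, map_sum, sum_apply]
  refine Finset.sum_congr rfl fun i _ => ?_
  rw [map_mul, aeval_C, Algebra.algebraMap_eq_smul_one, smul_mul_assoc, one_mul, smul_apply]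

/-- A bound for families which holds for all linear combinations. -/
theorem vec_of_scalar (p : ι → ℂ[X]) (M : ℝ) (hM0 : 0 ≤ M) (W : Set ℂ) (w : ℂ)
    (h : ∀ r : ℂ[X], ∀ N : ℝ, (∀ z ∈ W, ‖r.eval z‖ ≤ N) → ‖r.eval w‖ ≤ N)
    (hM : ∀ z ∈ W, ∑ i, ‖(p i).eval z‖ ^ 2 ≤ M ^ 2) :
    ∑ i, ‖(p i).eval w‖ ^ 2 ≤ M ^ 2 := by
  set v : ι → ℂ := fun i => (starRingEnd ℂ) ((p i).eval w) with hv
  set S := ∑ i, ‖(p i).eval w‖ ^ 2 with hS
  have hS0 : 0 ≤ S := by positivity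
  have hvS : ∑ i, ‖v i‖ ^ 2 = S := by
    rw [hS]
    refine Finset.sum_congr rfl fun i _ => ?_
    rw [hv]; simp
  have h1 := h (comb v p) (Real.sqrt S * M) (by
    intro z hz
    rw [comb_eval]
    have h2 := cs_scalar v (fun i => (p i).eval z)
    rw [hvS] at h2
    have h3 : ‖∑ i, v i * (p i).eval z‖ ^ 2 ≤ (Real.sqrt S * M) ^ 2 := by
      rw [mul_pow, Real.sq_sqrt hS0]
      refine h2.trans ?_
      gcongr
      exact hM z hz
    exact le_of_sq_le_sq h3 (by positivity))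
  have h4 : (comb v p).eval w = ((S : ℝ) : ℂ) := by
    rw [comb_eval, hS]
    push_cast
    refine Finset.sum_congr rfl fun i _ => ?_
    rw [hv]
    simp only
    rw [mul_comm, Complex.mul_conj, Complex.normSq_eq_norm_sq]
    push_cast
    rfl
  rw [h4, Complex.norm_real, Real.norm_of_nonneg hS0] at h1
  -- `S ≤ √S M` implies `S ≤ M ^ 2`
  have h5 : Real.sqrt S * Real.sqrt S = S := Real.mul_self_sqrt hS0
  rcases hS0.eq_or_lt with h0 | h0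
  · rw [← h0]; positivity
  · have h6 : 0 < Real.sqrt S := Real.sqrt_pos.mpr h0
    have h7 : Real.sqrt S ≤ M := by
      have : Real.sqrt S * Real.sqrt S ≤ Real.sqrt S * M := by rw [h5]; exact h1
      exact le_of_mul_le_mul_left this h6
    nlinarith

/-- The basic inequality for columns. -/
theorem basic_col (A : H →L[ℂ] H) (q : ℂ) (hq0 : 0 < ‖q‖) (hq1 : ‖q‖ ≤ 1)
    (hd : ‖q‖ = 1 ∨ ∀ x : H, ∃ w : H, ‖w‖ = 1 ∧ inner ℂ x w = 0)
    (p : ι → ℂ[X]) (M : ℝ) (hM0 : 0 ≤ M) (hM : ∀ z ∈ Om A q, ∑ i, ‖(p i).eval z‖ ^ 2 ≤ M ^ 2)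
    (x : H) (hx : ‖x‖ = 1) :
    kap q ^ 2 * (∑ i, ‖aeval A (p i) x‖ ^ 2)
      - (kap q ^ 2 - 1) * (∑ i, ‖inner ℂ x (aeval A (p i) x)‖ ^ 2) ≤ (2 * M) ^ 2 := by
  have hk1 := kap_ge q hq0 hq1
  have hk0 : 0 < kap q := by linarith
  have : Nontrivial H := ⟨⟨x, 0, fun h => by rw [h, norm_zero] at hx; exact zero_ne_one hx⟩⟩
  set k := kap q with hk
  set S := Sc x k with hS
  set R := Sc x k⁻¹ with hR
  have hSR : S * R = 1 := Sc_mul x hx k hk0.ne'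
  have hRS : R * S = 1 := by
    have := Sc_mul x hx k⁻¹ (inv_ne_zero hk0.ne')
    rwa [inv_inv] at this
  set B := R * A * S with hB
  have hBR : B * R = R * A := by
    rw [hB, mul_assoc, hSR, mul_one]
  have hnr : ∀ w ∈ numRange B, ∑ i, ‖(p i).eval w‖ ^ 2 ≤ M ^ 2 := by
    rintro _ ⟨w, hw, rfl⟩
    have h1 : inner ℂ w (B w) = inner ℂ (R w) (A (S w)) := by
      rw [hB]
      exact (Sc_symm x k⁻¹ w (A (S w))).symm
    rw [h1]
    apply vec_of_scalar p M hM0 (Om A q) _ _ hM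
    intro r N hr
    apply pair_bound A q hq0 hq1 hd r N hr
    · rw [hR, Sc_symm, ← hR]
      have : R (S w) = w := by
        have := congrArg (fun T : H →L[ℂ] H => T w) hRS
        exact this
      rw [this, inner_self_eq_norm_sq_to_K, hw]
      simp
    · have h2 := Sc_norm_mul x hx k hk0 w hw
      calc ‖q‖ * (‖S w‖ * ‖R w‖) ≤ ‖q‖ * ((k + k⁻¹) / 2) := by gcongr
        _ = 1 := kap_avg q hq0 hq1
  have hcz := crouzeix_column B p M hM0 hnr x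
  rw [hx, one_pow, mul_one] at hcz
  refine le_trans (le_of_eq ?_) hcz
  rw [Finset.mul_sum, Finset.mul_sum, ← Finset.sum_sub_distrib]
  refine Finset.sum_congr rfl fun i _ => ?_
  set T := aeval A (p i) with hT
  have hBT : (aeval B (p i)) x = R (T ((k : ℂ) • x)) := by
    have h1 : aeval B (p i) * R = R * T := aeval_intertwine B A R hBR (p i)
    have h2 : aeval B (p i) = R * T * S := by
      calc aeval B (p i) = aeval B (p i) * (R * S) := by rw [hRS, mul_one]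
        _ = R * T * S := by rw [← mul_assoc, h1]
    rw [h2]
    show R (T (S x)) = _
    rw [hS, Sc_self x hx]
  rw [hBT, hR, Sc_norm x hx, map_smul, norm_smul, inner_smul_right, norm_mul, Complex.norm_real,
    Real.norm_of_nonneg hk0.le]
  field_simp
  ring

omit [CompleteSpace H] in
/-- from unit vectors to all vectors -/
theorem of_unit (F : ι → H →L[ℂ] H) (N : ℝ)
    (h : ∀ x : H, ‖x‖ = 1 → ∑ i, ‖F i x‖ ^ 2 ≤ N) (x : H) :
    ∑ i, ‖F i x‖ ^ 2 ≤ N * ‖x‖ ^ 2 := by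
  by_cases hu : x = 0
  · simp [hu]
  have hn : ‖x‖ ≠ 0 := norm_ne_zero_iff.mpr hu
  have h1 := h ((‖x‖ : ℂ)⁻¹ • x)
    (by rw [norm_smul, norm_inv, Complex.norm_real, norm_norm, inv_mul_cancel₀ hn])
  have h2 : ∀ i, ‖F i ((‖x‖ : ℂ)⁻¹ • x)‖ ^ 2 = (‖x‖ ^ 2)⁻¹ * ‖F i x‖ ^ 2 := by
    intro i
    rw [map_smul, norm_smul, norm_inv, Complex.norm_real, norm_norm, mul_pow, inv_pow]
  simp only [h2] at h1
  rw [← Finset.mul_sum, inv_mul_le_iff₀ (by positivity)] at h1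
  linarith

/-- The crude bound for columns. -/
theorem crude_col (A : H →L[ℂ] H) (q : ℂ) (hq0 : 0 < ‖q‖) (hq1 : ‖q‖ ≤ 1)
    (hd : ‖q‖ = 1 ∨ ∀ x : H, ∃ w : H, ‖w‖ = 1 ∧ inner ℂ x w = 0)
    (p : ι → ℂ[X]) (M : ℝ) (hM0 : 0 ≤ M) (hM : ∀ z ∈ Om A q, ∑ i, ‖(p i).eval z‖ ^ 2 ≤ M ^ 2)
    (x : H) (hx : ‖x‖ = 1) : ∑ i, ‖aeval A (p i) x‖ ^ 2 ≤ (2 * M) ^ 2 := by
  have hk1 := kap_ge q hq0 hq1
  have h := basic_col A q hq0 hq1 hd p M hM0 hM x hx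
  have h1 : ∑ i, ‖inner ℂ x (aeval A (p i) x)‖ ^ 2 ≤ ∑ i, ‖aeval A (p i) x‖ ^ 2 := by
    refine Finset.sum_le_sum fun i _ => ?_
    have := norm_inner_le_norm (𝕜 := ℂ) x (aeval A (p i) x)
    rw [hx, one_mul] at this
    exact pow_le_pow_left₀ (norm_nonneg _) this 2
  have h3 : 0 ≤ kap q ^ 2 - 1 := by nlinarith
  nlinarith

/-- the first variation of the identity of the ball: `p + a - ⟨p, a⟩ p` -/
noncomputable def vr (a : ι → ℂ) (p : ι → ℂ[X]) (i : ι) : ℂ[X] :=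
  p i + C (a i) - comb (fun j => (starRingEnd ℂ) (a j)) p * p i

theorem vr_eval (a : ι → ℂ) (p : ι → ℂ[X]) (s : ℝ) (hs0 : 0 ≤ s)
    (ha : ∑ i, ‖a i‖ ^ 2 ≤ s ^ 2) (z : ℂ) (hz : ∑ i, ‖(p i).eval z‖ ^ 2 ≤ 1) :
    ∑ i, ‖(vr a p i).eval z‖ ^ 2 ≤ 1 + 4 * s ^ 2 := by
  set ζ : ℂ := ∑ j, (starRingEnd ℂ) (a j) * (p j).eval z with hζ
  set S := ∑ i, ‖(p i).eval z‖ ^ 2 with hS
  have hS0 : 0 ≤ S := by positivity
  have he : ∀ i, (vr a p i).eval z = (1 - ζ) * (p i).eval z + a i := by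
    intro i
    rw [vr, eval_sub, eval_add, eval_mul, eval_C, comb_eval, ← hζ]
    ring
  have hζn : ‖ζ‖ ^ 2 ≤ s ^ 2 * S := by
    have h := cs_scalar (fun j => (starRingEnd ℂ) (a j)) (fun j => (p j).eval z)
    refine h.trans ?_
    gcongr
    simpa using ha
  have hζs : ‖ζ‖ ≤ s := by
    have : ‖ζ‖ ^ 2 ≤ s ^ 2 := hζn.trans (by nlinarith [sq_nonneg s])
    exact le_of_sq_le_sq this hs0
  have hexp : ∑ i, ‖(vr a p i).eval z‖ ^ 2 =
      ‖1 - ζ‖ ^ 2 * S + ∑ i, ‖a i‖ ^ 2 + 2 * ((1 - ζ) * ζ).re := by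
    have e : ∀ i, ‖(vr a p i).eval z‖ ^ 2 = ‖1 - ζ‖ ^ 2 * ‖(p i).eval z‖ ^ 2 + ‖a i‖ ^ 2
        + 2 * ((1 - ζ) * ((starRingEnd ℂ) (a i) * (p i).eval z)).re := by
      intro i
      rw [he, ← Complex.normSq_eq_norm_sq, Complex.normSq_add, Complex.normSq_mul,
        Complex.normSq_eq_norm_sq, Complex.normSq_eq_norm_sq, Complex.normSq_eq_norm_sq]
      congr 3
      ring
    simp only [e]
    rw [Finset.sum_add_distrib, Finset.sum_add_distrib, ← Finset.mul_sum, ← Finset.mul_sum,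
      ← Complex.re_sum, ← Finset.mul_sum]
  rw [hexp]
  have h1 : ‖1 - ζ‖ ^ 2 = 1 - 2 * ζ.re + ‖ζ‖ ^ 2 := by
    rw [← Complex.normSq_eq_norm_sq, ← Complex.normSq_eq_norm_sq, Complex.normSq_apply,
      Complex.normSq_apply]
    simp only [Complex.sub_re, Complex.sub_im, Complex.one_re, Complex.one_im]
    ring
  have h2 : ((1 - ζ) * ζ).re = ζ.re - (ζ ^ 2).re := by
    rw [sub_mul, one_mul, Complex.sub_re, sq]
  have h3 : |(ζ ^ 2).re| ≤ ‖ζ‖ ^ 2 := by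
    rw [← norm_pow]; exact Complex.abs_re_le_norm _
  have h4 : |ζ.re| ≤ ‖ζ‖ := Complex.abs_re_le_norm _
  rw [h1, h2]
  have h5 := (abs_le.mp h3).1
  have h6 := (abs_le.mp h4).2
  have h7 : ‖ζ‖ ^ 2 ≤ s ^ 2 := pow_le_pow_left₀ (norm_nonneg _) hζs 2
  have h8 : ζ.re * (1 - S) ≤ s * (1 - S) :=
    mul_le_mul_of_nonneg_right (h6.trans hζs) (by linarith)
  have h9 : ‖ζ‖ ^ 2 * S ≤ s ^ 2 * 1 := by gcongr
  nlinarith

omit [CompleteSpace H] in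
theorem vr_aeval (a : ι → ℂ) (p : ι → ℂ[X]) (A : H →L[ℂ] H) (y : H) (i : ι) :
    aeval A (vr a p i) y = aeval A (p i) y +
      (a i • y - aeval A (p i) (aeval A (comb (fun j => (starRingEnd ℂ) (a j)) p) y)) := by
  rw [vr, mul_comm, map_sub, map_add, map_mul, aeval_C, Algebra.algebraMap_eq_smul_one, sub_apply,
    add_apply, smul_apply, one_apply_eq_self, add_sub_assoc]
  rfl

/-- The variation of a near extremal family. -/
theorem near_extremal (A : H →L[ℂ] H) (W : Set ℂ) (K2 : ℝ) (hK1 : 1 < K2)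
    (hK : ∀ p : ι → ℂ[X], (∀ z ∈ W, ∑ i, ‖(p i).eval z‖ ^ 2 ≤ 1) →
      ∀ x : H, ∑ i, ‖aeval A (p i) x‖ ^ 2 ≤ K2 * ‖x‖ ^ 2)
    (p : ι → ℂ[X]) (hp : ∀ z ∈ W, ∑ i, ‖(p i).eval z‖ ^ 2 ≤ 1) (s : ℝ) (hs0 : 0 < s)
    (hs : s ≤ 1 / 2) (y : H) (hy : ‖y‖ = 1) (ht : K2 - s ^ 2 ≤ ∑ i, ‖aeval A (p i) y‖ ^ 2) :
    ∑ i, ‖inner ℂ y (aeval A (p i) y)‖ ^ 2 ≤
      ((2 + 4 * K2 + K2 ^ 2) / (2 * (K2 - 1)) * s) ^ 2 := by
  set r : ι → ℂ := fun i => inner ℂ y (aeval A (p i) y) with hr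
  set t := ∑ i, ‖aeval A (p i) y‖ ^ 2 with htd
  set ρ := Real.sqrt (∑ i, ‖r i‖ ^ 2) with hρ
  have hr0 : (0 : ℝ) ≤ ∑ i, ‖r i‖ ^ 2 := by positivity
  have hρ2 : ρ ^ 2 = ∑ i, ‖r i‖ ^ 2 := Real.sq_sqrt hr0
  have hρ0 : 0 ≤ ρ := Real.sqrt_nonneg _
  show ∑ i, ‖r i‖ ^ 2 ≤ _
  rw [← hρ2]
  have hD0 : 0 ≤ (2 + 4 * K2 + K2 ^ 2) / (2 * (K2 - 1)) * s := by
    apply mul_nonneg _ hs0.le
    apply div_nonneg <;> nlinarith
  rcases hρ0.eq_or_lt with h0 | h0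
  · rw [← h0, zero_pow two_ne_zero]; positivity
  have hρc : (ρ : ℂ) ≠ 0 := by exact_mod_cast h0.ne'
  apply pow_le_pow_left₀ hρ0
  set a : ι → ℂ := fun i => -((s / ρ : ℝ) : ℂ) * r i with ha
  have hsρ : 0 < s / ρ := by positivity
  have ha2 : ∑ i, ‖a i‖ ^ 2 = s ^ 2 := by
    have e : ∀ i, ‖a i‖ ^ 2 = (s / ρ) ^ 2 * ‖r i‖ ^ 2 := by
      intro i
      rw [ha]
      simp only
      rw [norm_mul, norm_neg, Complex.norm_real, Real.norm_of_nonneg hsρ.le, mul_pow]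
    simp only [e]
    rw [← Finset.mul_sum, ← hρ2]
    field_simp
  set V := aeval A (comb (fun j => (starRingEnd ℂ) (a j)) p) with hV
  set v := V y with hv
  have hty : t ≤ K2 := by
    have := hK p hp y
    rwa [hy, one_pow, mul_one] at this
  have hvn : ‖v‖ ^ 2 ≤ s ^ 2 * K2 := by
    rw [hv, hV, comb_aeval]
    refine (cs_vec _ _).trans ?_
    have : ∑ i, ‖(starRingEnd ℂ) (a i)‖ ^ 2 = s ^ 2 := by simpa using ha2
    rw [this]
    gcongr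
  -- the two scalar products
  have hyv : inner ℂ y v = ((-(s * ρ) : ℝ) : ℂ) := by
    rw [hv, hV, comb_aeval, inner_sum]
    have e : ∀ i, inner ℂ y ((starRingEnd ℂ) (a i) • aeval A (p i) y) =
        ((-(s / ρ) * ‖r i‖ ^ 2 : ℝ) : ℂ) := by
      intro i
      rw [inner_smul_right]
      show (starRingEnd ℂ) (a i) * r i = _
      rw [ha]
      simp only [map_mul, map_neg, Complex.conj_ofReal]
      rw [mul_assoc, mul_comm ((starRingEnd ℂ) (r i)), Complex.mul_conj, Complex.normSq_eq_norm_sq]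
      push_cast
      ring
    simp only [e]
    rw [← Complex.ofReal_sum, ← Finset.mul_sum, ← hρ2]
    congr 1
    field_simp
  have hay : (∑ i, inner ℂ (aeval A (p i) y) (a i • y)).re = -(s * ρ) := by
    have e : ∀ i, inner ℂ (aeval A (p i) y) (a i • y) =
        ((-(s / ρ) * ‖r i‖ ^ 2 : ℝ) : ℂ) := by
      intro i
      rw [inner_smul_right, ← inner_conj_symm]
      show a i * (starRingEnd ℂ) (r i) = _
      rw [ha]
      simp only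
      rw [mul_assoc, Complex.mul_conj, Complex.normSq_eq_norm_sq]
      push_cast
      ring
    simp only [e]
    rw [← Complex.ofReal_sum, ← Finset.mul_sum, ← hρ2, Complex.ofReal_re]
    field_simp
  -- semidefiniteness
  have hQ : 2 * (∑ i, inner ℂ (aeval A (p i) y) (aeval A (p i) v)).re ≤
      -(2 * K2 * (s * ρ)) + (K2 - t) + K2 * ‖v‖ ^ 2 := by
    have h1 := hK p hp (y - v)
    have e1 : ∀ i, ‖aeval A (p i) (y - v)‖ ^ 2 = ‖aeval A (p i) y‖ ^ 2 + ‖aeval A (p i) v‖ ^ 2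
        - 2 * (inner ℂ (aeval A (p i) y) (aeval A (p i) v)).re := by
      intro i
      rw [map_sub, norm_sub_sq (𝕜 := ℂ), RCLike.re_eq_complex_re]
      ring
    simp only [e1] at h1
    rw [Finset.sum_sub_distrib, Finset.sum_add_distrib, ← Finset.mul_sum, ← Complex.re_sum,
      norm_sub_sq (𝕜 := ℂ), hyv, hy] at h1
    have h2 : (0 : ℝ) ≤ ∑ i, ‖aeval A (p i) v‖ ^ 2 := by positivity
    have h3 : RCLike.re (((-(s * ρ) : ℝ) : ℂ)) = -(s * ρ) := Complex.ofReal_re _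
    rw [h3] at h1
    have h1' := hK p hp (y + v)
    have e1' : ∀ i, ‖aeval A (p i) (y + v)‖ ^ 2 = ‖aeval A (p i) y‖ ^ 2 + ‖aeval A (p i) v‖ ^ 2
        + 2 * (inner ℂ (aeval A (p i) y) (aeval A (p i) v)).re := by
      intro i
      rw [map_add, norm_add_sq (𝕜 := ℂ), RCLike.re_eq_complex_re]
      ring
    simp only [e1'] at h1'
    rw [Finset.sum_add_distrib, Finset.sum_add_distrib, ← Finset.mul_sum, ← Complex.re_sum,
      norm_add_sq (𝕜 := ℂ), hyv, hy, h3] at h1'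
    nlinarith
  -- the variation
  have hN : 0 < 1 + 4 * s ^ 2 := by positivity
  set c : ℂ := (((Real.sqrt (1 + 4 * s ^ 2))⁻¹ : ℝ) : ℂ) with hc
  have hc2 : ‖c‖ ^ 2 = (1 + 4 * s ^ 2)⁻¹ := by
    rw [hc, Complex.norm_real, Real.norm_of_nonneg (by positivity), inv_pow, Real.sq_sqrt hN.le]
  have hvar := hK (fun i => C c * vr a p i) (by
    intro z hz
    have h1 := vr_eval a p s hs0.le ha2.le z (hp z hz)
    have e : ∀ i, ‖(C c * vr a p i).eval z‖ ^ 2 = (1 + 4 * s ^ 2)⁻¹ * ‖(vr a p i).eval z‖ ^ 2 := by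
      intro i
      rw [eval_mul, eval_C, norm_mul, mul_pow, hc2]
    simp only [e]
    rw [← Finset.mul_sum, inv_mul_le_iff₀ hN, mul_one]
    exact h1) y
  have e2 : ∀ i, ‖aeval A (C c * vr a p i) y‖ ^ 2 =
      (1 + 4 * s ^ 2)⁻¹ * ‖aeval A (vr a p i) y‖ ^ 2 := by
    intro i
    rw [map_mul, aeval_C, Algebra.algebraMap_eq_smul_one, smul_mul_assoc, one_mul, smul_apply,
      norm_smul, mul_pow, hc2]
  simp only [e2] at hvar
  rw [← Finset.mul_sum, inv_mul_le_iff₀ hN, hy, one_pow, mul_one] at hvar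
  have e3 : ∀ i, ‖aeval A (p i) y‖ ^ 2 + 2 * (inner ℂ (aeval A (p i) y) (a i • y)).re
      - 2 * (inner ℂ (aeval A (p i) y) (aeval A (p i) v)).re ≤ ‖aeval A (vr a p i) y‖ ^ 2 := by
    intro i
    rw [vr_aeval, norm_add_sq (𝕜 := ℂ), RCLike.re_eq_complex_re, inner_sub_right, Complex.sub_re]
    have : (0 : ℝ) ≤ ‖a i • y - aeval A (p i) (aeval A (comb (fun j => (starRingEnd ℂ) (a j)) p) y)‖ ^ 2 := by
      positivity
    linarith
  have h5 := Finset.sum_le_sum fun i (_ : i ∈ Finset.univ) => e3 i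
  rw [Finset.sum_sub_distrib, Finset.sum_add_distrib, ← Finset.mul_sum, ← Finset.mul_sum,
    ← Complex.re_sum, ← Complex.re_sum, hay] at h5
  have h6 : t + 2 * (-(s * ρ)) - 2 * (∑ i, inner ℂ (aeval A (p i) y) (aeval A (p i) v)).re ≤
      (1 + 4 * s ^ 2) * K2 := h5.trans hvar
  have h7 : K2 * ‖v‖ ^ 2 ≤ K2 * (s ^ 2 * K2) := by gcongr
  have h8 : s * (2 * (K2 - 1) * ρ) ≤ s * ((2 + 4 * K2 + K2 ^ 2) * s) := by nlinarith
  have h9 : 2 * (K2 - 1) * ρ ≤ (2 + 4 * K2 + K2 ^ 2) * s := le_of_mul_le_mul_left h8 hs0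
  rw [div_mul_eq_mul_div, le_div_iff₀ (by linarith)]
  linarith

/-- **The bound for columns**, Hilbert space form. -/
theorem main_col (A : H →L[ℂ] H) (q : ℂ) (hq0 : 0 < ‖q‖) (hq1 : ‖q‖ ≤ 1)
    (hd : ‖q‖ = 1 ∨ ∀ x : H, ∃ w : H, ‖w‖ = 1 ∧ inner ℂ x w = 0)
    (p : ι → ℂ[X]) (M : ℝ) (hM0 : 0 ≤ M) (hM : ∀ z ∈ Om A q, ∑ i, ‖(p i).eval z‖ ^ 2 ≤ M ^ 2)
    (x : H) : ∑ i, ‖aeval A (p i) x‖ ^ 2 ≤ (max 1 (2 / kap q) * M) ^ 2 * ‖x‖ ^ 2 := by
  have hk1 := kap_ge q hq0 hq1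
  have hk0 : 0 < kap q := by linarith
  set c := max 1 (2 / kap q) with hc
  have hc1 : 1 ≤ c := le_max_left _ _
  have hc2 : 2 / kap q ≤ c := le_max_right _ _
  by_cases hx0 : x = 0
  · simp [hx0]
  have : Nontrivial H := ⟨⟨x, 0, hx0⟩⟩
  obtain ⟨x0, hx01⟩ := exists_norm_eq H zero_le_one
  -- the extremal constant
  set E : Set ℝ := {t | ∃ p : ι → ℂ[X], (∀ z ∈ Om A q, ∑ i, ‖(p i).eval z‖ ^ 2 ≤ 1) ∧
    ∃ x : H, ‖x‖ = 1 ∧ t = ∑ i, ‖aeval A (p i) x‖ ^ 2} with hE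
  have hEb : BddAbove E := by
    refine ⟨(2 * 1) ^ 2, ?_⟩
    rintro _ ⟨p, hp, x, hx, rfl⟩
    exact crude_col A q hq0 hq1 hd p 1 zero_le_one (by simpa using hp) x hx
  have hEne : E.Nonempty := ⟨_, fun _ => 0, fun z _ => by simp, x0, hx01, rfl⟩
  set K2 := sSup E with hKd
  have hKb : ∀ p : ι → ℂ[X], (∀ z ∈ Om A q, ∑ i, ‖(p i).eval z‖ ^ 2 ≤ 1) →
      ∀ x : H, ∑ i, ‖aeval A (p i) x‖ ^ 2 ≤ K2 * ‖x‖ ^ 2 := fun p hp x =>
    of_unit (fun i => aeval A (p i)) K2 (fun x hx => le_csSup hEb ⟨p, hp, x, hx, rfl⟩) x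
  have hKc : K2 ≤ c ^ 2 := by
    by_contra hcon
    push Not at hcon
    have hK1 : 1 < K2 := lt_of_le_of_lt (by nlinarith) hcon
    set D : ℝ := (2 + 4 * K2 + K2 ^ 2) / (2 * (K2 - 1)) with hD
    have key : ∀ s : ℝ, 0 < s → s ≤ 1 / 2 →
        kap q ^ 2 * (K2 - s ^ 2) ≤ 4 + (kap q ^ 2 - 1) * (D * s) ^ 2 := by
      intro s hs0 hs
      have hlt : K2 - s ^ 2 < K2 := by nlinarith
      obtain ⟨t, ⟨p, hp, y, hy, rfl⟩, ht⟩ := exists_lt_of_lt_csSup hEne hlt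
      have h1 := near_extremal A (Om A q) K2 hK1 hKb p hp s hs0 hs y hy ht.le
      have hb := basic_col A q hq0 hq1 hd p 1 zero_le_one (by simpa using hp) y hy
      have h8 : 0 ≤ kap q ^ 2 - 1 := by nlinarith
      have h9 : kap q ^ 2 * (K2 - s ^ 2) ≤ kap q ^ 2 * ∑ i, ‖aeval A (p i) y‖ ^ 2 := by
        gcongr
      have h10 : (kap q ^ 2 - 1) * (∑ i, ‖inner ℂ y (aeval A (p i) y)‖ ^ 2) ≤
          (kap q ^ 2 - 1) * (D * s) ^ 2 := by gcongr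
      linarith
    have hlim : kap q ^ 2 * (K2 - 0 ^ 2) ≤ 4 + (kap q ^ 2 - 1) * (D * 0) ^ 2 := by
      have hc1 : Tendsto (fun s : ℝ => kap q ^ 2 * (K2 - s ^ 2)) (𝓝[>] 0)
          (𝓝 (kap q ^ 2 * (K2 - 0 ^ 2))) := by
        have : Continuous (fun s : ℝ => kap q ^ 2 * (K2 - s ^ 2)) := by fun_prop
        exact (this.tendsto 0).mono_left nhdsWithin_le_nhds
      have hc2 : Tendsto (fun s : ℝ => 4 + (kap q ^ 2 - 1) * (D * s) ^ 2) (𝓝[>] 0)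
          (𝓝 (4 + (kap q ^ 2 - 1) * (D * 0) ^ 2)) := by
        have : Continuous (fun s : ℝ => 4 + (kap q ^ 2 - 1) * (D * s) ^ 2) := by fun_prop
        exact (this.tendsto 0).mono_left nhdsWithin_le_nhds
      refine le_of_tendsto_of_tendsto hc1 hc2 ?_
      filter_upwards [Ioo_mem_nhdsGT (show (0 : ℝ) < 1 / 2 by norm_num)] with s hs
      exact key s hs.1 hs.2.le
    have h1 : kap q ^ 2 * K2 ≤ 2 ^ 2 := by nlinarith
    have h3 : K2 ≤ (2 / kap q) ^ 2 := by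
      rw [div_pow, le_div_iff₀ (by positivity)]
      linarith
    have h4 : (2 / kap q) ^ 2 ≤ c ^ 2 := by gcongr
    linarith
  -- scale
  rcases hM0.eq_or_lt with h0 | h0
  · have := of_unit (fun i => aeval A (p i)) ((2 * M) ^ 2)
      (fun x hx => crude_col A q hq0 hq1 hd p M hM0 hM x hx) x
    rw [← h0] at this ⊢
    simpa using this
  · have h1 := hKb (fun i => C ((M : ℂ)⁻¹) * p i) (by
      intro z hz
      have e : ∀ i, ‖(C ((M : ℂ)⁻¹) * p i).eval z‖ ^ 2 = (M ^ 2)⁻¹ * ‖(p i).eval z‖ ^ 2 := by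
        intro i
        rw [eval_mul, eval_C, norm_mul, norm_inv, Complex.norm_real, Real.norm_of_nonneg hM0,
          mul_pow, inv_pow]
      simp only [e]
      rw [← Finset.mul_sum, inv_mul_le_iff₀ (by positivity), mul_one]
      exact hM z hz) x
    have e : ∀ i, ‖aeval A (C ((M : ℂ)⁻¹) * p i) x‖ ^ 2 = (M ^ 2)⁻¹ * ‖aeval A (p i) x‖ ^ 2 := by
      intro i
      rw [map_mul, aeval_C, Algebra.algebraMap_eq_smul_one, smul_mul_assoc, one_mul, smul_apply,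
        norm_smul, norm_inv, Complex.norm_real, Real.norm_of_nonneg hM0, mul_pow, inv_pow]
    simp only [e] at h1
    rw [← Finset.mul_sum, inv_mul_le_iff₀ (by positivity)] at h1
    calc ∑ i, ‖aeval A (p i) x‖ ^ 2 ≤ M ^ 2 * (K2 * ‖x‖ ^ 2) := h1
      _ ≤ M ^ 2 * (c ^ 2 * ‖x‖ ^ 2) := by gcongr
      _ = (c * M) ^ 2 * ‖x‖ ^ 2 := by ring

end Pool.Agent.H884.CR
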