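import Pool.Agent.H884.CR.QCol

/-!
# The row form of the bound for scaled `q`-numerical ranges
-/

set_option autoImplicit false

open MeasureTheory Set Filter Topology Polynomial

namespace Pool.Agent.H884.CR

open Pool.Agent Pool.Agent.W753.CZ Pool.Agent.Helper324_QNR

universe u

variable {ι : Type} [Fintype ι]
  {H : Type u} [NormedAddCommGroup H] [InnerProductSpace ℂ H] [CompleteSpace H]

theorem star_aeval (A : H →L[ℂ] H) (p : ℂ[X]) :
    star (aeval A p) = aeval (star A) (p.map (starRingEnd ℂ)) := by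
  induction p using Polynomial.induction_on' with
  | add p q hp hq => rw [map_add, star_add, hp, hq, Polynomial.map_add, map_add]
  | monomial n a =>
    rw [aeval_monomial, Polynomial.map_monomial, aeval_monomial, star_mul, star_pow,
      Algebra.algebraMap_eq_smul_one, star_smul, star_one, Algebra.algebraMap_eq_smul_one,
      mul_smul_comm, mul_one, smul_mul_assoc, one_mul]
    rfl

theorem Om_star (A : H →L[ℂ] H) (q z : ℂ) (hz : z ∈ Om (star A) ((starRingEnd ℂ) q)) :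
    (starRingEnd ℂ) z ∈ Om A q := by
  obtain ⟨x, y, hx, hy, hxy, rfl⟩ := hz
  refine ⟨y, x, hy, hx, ?_, ?_⟩
  · rw [← inner_conj_symm, hxy, RCLike.conj_conj]
  · rw [map_div₀, RCLike.conj_conj, inner_conj_symm, ContinuousLinearMap.star_eq_adjoint,
      ContinuousLinearMap.adjoint_inner_left]

/-- **The bound for rows**, Hilbert space form. -/
theorem main_row (A : H →L[ℂ] H) (q : ℂ) (hq0 : 0 < ‖q‖) (hq1 : ‖q‖ ≤ 1)
    (hd : ‖q‖ = 1 ∨ ∀ x : H, ∃ w : H, ‖w‖ = 1 ∧ inner ℂ x w = 0)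
    (p : ι → ℂ[X]) (M : ℝ) (hM0 : 0 ≤ M) (hM : ∀ z ∈ Om A q, ∑ i, ‖(p i).eval z‖ ^ 2 ≤ M ^ 2)
    (x : H) : ∑ i, ‖star (aeval A (p i)) x‖ ^ 2 ≤ (max 1 (2 / kap q) * M) ^ 2 * ‖x‖ ^ 2 := by
  have hqn : ‖(starRingEnd ℂ) q‖ = ‖q‖ := RCLike.norm_conj q
  have h := main_col (star A) ((starRingEnd ℂ) q) (by rw [hqn]; exact hq0) (by rw [hqn]; exact hq1)
    (by rw [hqn]; exact hd) (fun i => (p i).map (starRingEnd ℂ)) M hM0 (by
      intro z hz
      have h1 := hM _ (Om_star A q z hz)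
      refine le_trans (le_of_eq ?_) h1
      refine Finset.sum_congr rfl fun i _ => ?_
      have e : ((p i).map (starRingEnd ℂ)).eval z = (starRingEnd ℂ) ((p i).eval ((starRingEnd ℂ) z)) := by
        rw [eval_map]
        conv_lhs => rw [← RCLike.conj_conj z]
        rw [eval₂_at_apply]
      rw [e, RCLike.norm_conj]) x
  have hk : kap ((starRingEnd ℂ) q) = kap q := by
    rw [kap, kap, hqn]
  rw [hk] at h
  simpa only [star_aeval] using h

/-- the norm of a sum of positive operators -/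
theorem norm_sum_star_mul (F : ι → H →L[ℂ] H) (N : ℝ) (hN : 0 ≤ N)
    (h : ∀ x : H, ∑ i, ‖F i x‖ ^ 2 ≤ N * ‖x‖ ^ 2) : ‖∑ i, star (F i) * F i‖ ≤ N := by
  refine ContinuousLinearMap.opNorm_le_bound _ hN fun x => ?_
  set v := (∑ i, star (F i) * F i) x with hv
  have h1 : ((‖v‖ ^ 2 : ℝ) : ℂ) = ∑ i, inner ℂ (F i v) (F i x) := by
    have e0 : ((‖v‖ ^ 2 : ℝ) : ℂ) = inner ℂ v v := by
      rw [inner_self_eq_norm_sq_to_K]; norm_cast
    rw [e0]
    conv_lhs => rhs; rw [hv, sum_apply]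
    rw [inner_sum]
    refine Finset.sum_congr rfl fun i _ => ?_
    show inner ℂ v ((star (F i)) (F i x)) = _
    rw [ContinuousLinearMap.star_eq_adjoint, ContinuousLinearMap.adjoint_inner_right]
  have h2 : ‖v‖ ^ 2 ≤ ∑ i, ‖F i v‖ * ‖F i x‖ := by
    have e : ‖v‖ ^ 2 = ‖∑ i, inner ℂ (F i v) (F i x)‖ := by
      rw [← h1, Complex.norm_real, Real.norm_of_nonneg (by positivity)]
    rw [e]
    refine (norm_sum_le _ _).trans (Finset.sum_le_sum fun i _ => norm_inner_le_norm _ _)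
  have h3 : (∑ i, ‖F i v‖ * ‖F i x‖) ^ 2 ≤ (N * (‖v‖ * ‖x‖)) ^ 2 := by
    refine (Finset.sum_mul_sq_le_sq_mul_sq _ _ _).trans ?_
    calc (∑ i, ‖F i v‖ ^ 2) * ∑ i, ‖F i x‖ ^ 2 ≤ (N * ‖v‖ ^ 2) * (N * ‖x‖ ^ 2) := by
          gcongr
          · exact h v
          · exact h x
      _ = _ := by ring
  have h4 := le_of_sq_le_sq h3 (by positivity)
  by_cases hv0 : ‖v‖ = 0
  · rw [hv0]; positivity
  · have hvp : 0 < ‖v‖ := lt_of_le_of_ne (norm_nonneg _) (Ne.symm hv0)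
    have h5 : ‖v‖ * ‖v‖ ≤ ‖v‖ * (N * ‖x‖) := by nlinarith
    exact le_of_mul_le_mul_left h5 hvp

end Pool.Agent.H884.CR
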