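import Pool.Agent.H884.CR.Column

/-!
# The column bound: words of contractions
-/

set_option autoImplicit false

open MeasureTheory Set Filter Topology Complex Polynomial

namespace Pool.Agent.H884.CR

open Pool.Agent.W753.CZ

universe u

/-- words of length `k` -/
def Wd (ι : Type) : ℕ → Type
  | 0 => Unit
  | k + 1 => ι × Wd ι k

instance instFintypeWd (ι : Type) [Fintype ι] : ∀ k, Fintype (Wd ι k)
  | 0 => inferInstanceAs (Fintype Unit)
  | k + 1 => @instFintypeProd ι (Wd ι k) _ (instFintypeWd ι k)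

variable {ι : Type} [Fintype ι]

/-- the products of the polynomials along a word -/
noncomputable def up (f : ι → ℂ[X]) : ∀ k, Wd ι k → ℂ[X]
  | 0, _ => 1
  | k + 1, w => f w.1 * up f k w.2

theorem sum_Wd_succ {M : Type*} [AddCommMonoid M] (k : ℕ) (F : Wd ι (k + 1) → M) :
    ∑ w, F w = ∑ i, ∑ w, F ((i, w) : ι × Wd ι k) :=
  Fintype.sum_prod_type (f := F)

theorem sum_Wd_zero {M : Type*} [AddCommMonoid M] (F : Wd ι 0 → M) :
    ∑ w, F w = F () := by
  show ∑ w : Unit, F w = F ()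
  simp

theorem up_norm (f : ι → ℂ[X]) (z : ℂ) (hf : ∑ i, ‖(f i).eval z‖ ^ 2 ≤ 1) (k : ℕ) :
    ∑ w, ‖(up f k w).eval z‖ ^ 2 ≤ 1 := by
  induction k with
  | zero => rw [sum_Wd_zero]; simp [up]
  | succ k ih =>
    rw [sum_Wd_succ]
    have e : ∀ i (w : Wd ι k), ‖(up f (k + 1) ((i, w) : ι × Wd ι k)).eval z‖ ^ 2 =
        ‖(f i).eval z‖ ^ 2 * ‖(up f k w).eval z‖ ^ 2 := by
      intro i w
      show ‖(f i * up f k w).eval z‖ ^ 2 = _
      rw [eval_mul, norm_mul, mul_pow]
    simp only [e]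
    rw [← Finset.sum_mul_sum]
    have h0 : (0 : ℝ) ≤ ∑ w, ‖(up f k w).eval z‖ ^ 2 := by positivity
    calc (∑ i, ‖(f i).eval z‖ ^ 2) * ∑ w, ‖(up f k w).eval z‖ ^ 2 ≤ 1 * 1 := by gcongr
      _ = 1 := one_mul 1

variable {H : Type u} [NormedAddCommGroup H] [InnerProductSpace ℂ H] [CompleteSpace H]

theorem J_comm (X : ℝ → H →L[ℂ] H) (hXc : Continuous X) (A : H →L[ℂ] H)
    (hcomm : ∀ φ, Commute A (X φ)) (g : ℝ → ℂ) (hg : Continuous g) (q : ℂ[X]) (x : H) :
    aeval A q (J X g x) = J X g (aeval A q x) := by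
  set T := aeval A q with hT
  have hTX : ∀ φ, T * X φ = X φ * T := fun φ => (commute_aeval (hcomm φ) q).eq
  have i1 : IntervalIntegrable (fun φ => g φ • X φ) volume 0 (2 * Real.pi) := by
    apply Continuous.intervalIntegrable; fun_prop
  have e1 : T * (∫ φ in (0 : ℝ)..(2 * Real.pi), g φ • X φ) =
      ∫ φ in (0 : ℝ)..(2 * Real.pi), T * (g φ • X φ) :=
    (ContinuousLinearMap.intervalIntegral_comp_comm
        (ContinuousLinearMap.mul ℂ (H →L[ℂ] H) T) i1).symm
  have e2 : (∫ φ in (0 : ℝ)..(2 * Real.pi), g φ • X φ) * T =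
      ∫ φ in (0 : ℝ)..(2 * Real.pi), (g φ • X φ) * T :=
    (ContinuousLinearMap.intervalIntegral_comp_comm
        ((ContinuousLinearMap.mul ℂ (H →L[ℂ] H)).flip T) i1).symm
  have h : T * J X g = J X g * T := by
    rw [J, mul_smul_comm, smul_mul_assoc, e1, e2]
    congr 1
    apply intervalIntegral.integral_congr
    intro φ _
    simp only
    rw [mul_smul_comm, smul_mul_assoc, hTX]
  exact congrArg (fun R : H →L[ℂ] H => R x) h

omit [CompleteSpace H] in
theorem norm_sq_re {W : Type} [Fintype W] (a : E W H) :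
    ‖a‖ ^ 2 = (∑ w, inner ℂ (a w) (a w)).re := by
  rw [← PiLp.inner_apply, inner_self_eq_norm_sq_to_K]
  norm_cast

/-- the column bound -/
theorem column_curve (A : H →L[ℂ] H) (s : ℝ → ℂ) (hs : Continuous s) (X : ℝ → H →L[ℂ] H)
    (hXc : Continuous X) (hXre : ∀ φ u, 0 ≤ (inner ℂ u (X φ u)).re)
    (hcomm : ∀ φ, Commute A (X φ))
    (hpoly : ∀ q : ℂ[X], ∫ φ in (0 : ℝ)..(2 * Real.pi), q.eval (s φ) • X φ =
        ((2 * Real.pi : ℝ) : ℂ) • aeval A q)
    (f : ι → ℂ[X]) (hf : ∀ φ, ∑ i, ‖(f i).eval (s φ)‖ ^ 2 ≤ 1) :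
    ‖col (fun i => aeval A (f i))‖ ≤ 2 := by
  have hπ : (0 : ℝ) < 2 * Real.pi := by positivity
  have hπc : (((2 * Real.pi : ℝ) : ℂ)) ≠ 0 := by exact_mod_cast hπ.ne'
  have hJp : ∀ q : ℂ[X], J X (fun φ => q.eval (s φ)) = aeval A q := by
    intro q
    rw [J, hpoly, smul_smul, inv_mul_cancel₀ hπc, one_smul]
  have hJ1 : J X (fun _ => 1) = 1 := by
    have := hJp 1
    simpa using this
  have hc : ∀ q : ℂ[X], Continuous (fun φ => q.eval (s φ)) := fun q => by fun_prop
  have hcc : ∀ q : ℂ[X], Continuous (fun φ => (starRingEnd ℂ) (q.eval (s φ))) := fun q =>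
    continuous_conj.comp (hc q)
  obtain ⟨K, hK⟩ := (isCompact_uIcc (a := (0 : ℝ)) (b := 2 * Real.pi)).exists_bound_of_continuousOn
    hXc.continuousOn
  have hK0 : 0 ≤ K := (norm_nonneg _).trans (hK 0 left_mem_uIcc)
  have hup : ∀ k φ, ∑ w, ‖(up f k w).eval (s φ)‖ ^ 2 ≤ 1 := fun k φ => up_norm f (s φ) (hf φ) k
  -- one vector as a family
  let one : H → E Unit H := fun v => WithLp.toLp 2 (fun _ => v)
  have hone : ∀ v, ‖one v‖ = ‖v‖ := by
    intro v
    have h : ‖one v‖ ^ 2 = ‖v‖ ^ 2 := by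
      rw [PiLp.norm_sq_eq_of_L2]
      simp [one]
    exact (sq_eq_sq₀ (norm_nonneg _) (norm_nonneg _)).mp h
  -- the bound for rows
  have hrow : ∀ (W : Type) [Fintype W] (g : W → ℝ → ℂ), (∀ w, Continuous (g w)) →
      (∀ φ, ∑ w, ‖g w φ‖ ^ 2 ≤ 1) → ∀ a : E W H, ‖∑ w, J X (g w) (a w)‖ ≤ K * ‖a‖ := by
    intro W _ g hg hg1 a
    set v := ∑ w, J X (g w) (a w) with hv
    have h1 := bil_bound X hXc K hK (fun (_ : Unit) _ => 1) (fun _ => continuous_const) g hg
      (fun φ => by simp) hg1 (one v) a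
    have h2 : ∑ w : Unit, ∑ i, inner ℂ (one v w) (J X (fun φ => 1 * g i φ) (a i)) =
        ((‖v‖ ^ 2 : ℝ) : ℂ) := by
      simp only [Finset.univ_unique, Finset.sum_singleton, one_mul]
      rw [← inner_sum]
      show inner ℂ v v = _
      rw [inner_self_eq_norm_sq_to_K]
      norm_cast
    rw [h2, Complex.norm_real, Real.norm_of_nonneg (by positivity), hone] at h1
    by_cases hv0 : ‖v‖ = 0
    · rw [hv0]; positivity
    · have hvp : 0 < ‖v‖ := lt_of_le_of_ne (norm_nonneg _) (Ne.symm hv0)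
      have h3 : ‖v‖ * ‖v‖ ≤ ‖v‖ * (K * ‖a‖) := by nlinarith
      exact le_of_mul_le_mul_left h3 hvp
  -- the bound for matrices
  have hmat : ∀ k, ∀ y : E ι H, ‖mat (fun (w : Wd ι k) i =>
      J X (fun φ => (starRingEnd ℂ) ((up f k w).eval (s φ)) *
        (starRingEnd ℂ) ((f i).eval (s φ)))) y‖ ≤ K * ‖y‖ := by
    intro k y
    set v := mat (fun (w : Wd ι k) i =>
      J X (fun φ => (starRingEnd ℂ) ((up f k w).eval (s φ)) *
        (starRingEnd ℂ) ((f i).eval (s φ)))) y with hv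
    have h1 := bil_bound X hXc K hK (fun (w : Wd ι k) φ => (starRingEnd ℂ) ((up f k w).eval (s φ)))
      (fun w => hcc _) (fun i φ => (starRingEnd ℂ) ((f i).eval (s φ))) (fun i => hcc _)
      (fun φ => by simpa using hup k φ) (fun φ => by simpa using hf φ) v y
    have h2 : ∑ w, ∑ i, inner ℂ (v w) (J X (fun φ => (starRingEnd ℂ) ((up f k w).eval (s φ)) *
        (starRingEnd ℂ) ((f i).eval (s φ))) (y i)) = ((‖v‖ ^ 2 : ℝ) : ℂ) := by
      have e : ∀ w, ∑ i, inner ℂ (v w) (J X (fun φ => (starRingEnd ℂ) ((up f k w).eval (s φ)) *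
        (starRingEnd ℂ) ((f i).eval (s φ))) (y i)) = inner ℂ (v w) (v w) := by
        intro w
        rw [← inner_sum]
        congr 1
        rw [hv, mat_apply]
      simp only [e]
      rw [← PiLp.inner_apply, inner_self_eq_norm_sq_to_K]
      norm_cast
    rw [h2, Complex.norm_real, Real.norm_of_nonneg (by positivity)] at h1
    by_cases hv0 : ‖v‖ = 0
    · rw [hv0]; positivity
    · have hvp : 0 < ‖v‖ := lt_of_le_of_ne (norm_nonneg _) (Ne.symm hv0)
      have h3 : ‖v‖ * ‖v‖ ≤ ‖v‖ * (K * ‖y‖) := by nlinarith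
      exact le_of_mul_le_mul_left h3 hvp
  refine core (fun k => E (Wd ι k) H) (col fun i => aeval A (f i))
    (fun k => row fun w => aeval A (up f k w))
    (fun k => col fun w => J X (fun φ => (starRingEnd ℂ) ((up f k w).eval (s φ))))
    (fun k => mat fun w i => J X (fun φ => (starRingEnd ℂ) ((up f k w).eval (s φ)) *
        (starRingEnd ℂ) ((f i).eval (s φ))))
    (row fun i => J X (fun φ => (starRingEnd ℂ) ((f i).eval (s φ)))) (max (K * K) K)
    ?_ ?_ ?_ ?_ ?_
  · intro k y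
    rw [row_apply]
    have e : ∀ w, aeval A (up f k w) = J X (fun φ => (up f k w).eval (s φ)) := fun w =>
      (hJp _).symm
    simp only [e]
    refine (hrow (Wd ι k) (fun w φ => (up f k w).eval (s φ)) (fun w => hc _) (hup k) _).trans ?_
    calc K * ‖mat (fun (w : Wd ι k) i =>
      J X (fun φ => (starRingEnd ℂ) ((up f k w).eval (s φ)) *
        (starRingEnd ℂ) ((f i).eval (s φ)))) y‖ ≤ K * (K * ‖y‖) := by
          gcongr
          exact hmat k y
      _ = (K * K) * ‖y‖ := by ring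
      _ ≤ max (K * K) K * ‖y‖ := by gcongr; exact le_max_left _ _
  · intro y
    rw [row_apply]
    refine (hrow ι (fun i φ => (starRingEnd ℂ) ((f i).eval (s φ))) (fun i => hcc _)
      (fun φ => by simpa using hf φ) y).trans ?_
    gcongr
    exact le_max_right _ _
  · intro k x
    rw [row_apply, row_apply, sum_Wd_succ, Finset.sum_comm]
    refine Finset.sum_congr rfl fun w _ => ?_
    rw [mat_apply, map_sum]
    refine Finset.sum_congr rfl fun i _ => ?_
    rw [col_apply, col_apply]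
    have e1 : up f (k + 1) ((i, w) : ι × Wd ι k) = up f k w * f i := mul_comm _ _
    have e2 : (fun φ => (starRingEnd ℂ) ((up f k w).eval (s φ)) *
        (starRingEnd ℂ) ((f i).eval (s φ))) =
        fun φ => (starRingEnd ℂ) ((up f k w * f i).eval (s φ)) := by
      funext φ
      rw [eval_mul, map_mul]
    rw [e1, e2, map_mul, ← J_comm X hXc A hcomm _ (hcc _)]
    rfl
  · intro x
    rw [row_apply, row_apply, sum_Wd_succ]
    refine Finset.sum_congr rfl fun i _ => ?_
    rw [sum_Wd_zero, col_apply, col_apply]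
    have e1 : up f 1 ((i, ()) : ι × Wd ι 0) = f i := mul_one _
    rw [e1, J_comm X hXc A hcomm _ (hcc _)]
  · intro k _ a b c
    have h := int_nonneg X hXc hXre hJ1 (fun (w : Wd ι k) φ => (up f k w).eval (s φ))
      (fun w => hc _) (hup k) (fun i φ => (f i).eval (s φ)) (fun i => hc _) hf a b c
    refine h.trans (le_of_eq ?_)
    simp only [add_re]
    rw [← norm_sq_re, ← norm_sq_re]
    have e2 : (inner ℂ b b).re = ‖b‖ ^ 2 := by
      rw [inner_self_eq_norm_sq_to_K]; norm_cast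
    rw [e2]
    have e4 : ∑ w, inner ℂ b (J X (fun φ => (up f k w).eval (s φ)) (a w)) =
        inner ℂ b (row (fun w => aeval A (up f k w)) a) := by
      rw [row_apply, inner_sum]
      exact Finset.sum_congr rfl fun w _ => by rw [hJp]
    have e5 : ∑ w, inner ℂ (a w) (J X (fun φ => (starRingEnd ℂ) ((up f k w).eval (s φ))) b) =
        inner ℂ a (col (fun w => J X (fun φ => (starRingEnd ℂ) ((up f k w).eval (s φ)))) b) := by
      rw [PiLp.inner_apply]
      exact Finset.sum_congr rfl fun w _ => by rw [col_apply]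
    have e6 : ∑ i, ∑ w, inner ℂ (c i) (J X (fun φ => (f i).eval (s φ) * (up f k w).eval (s φ))
        (a w)) = inner ℂ c (col (fun i => aeval A (f i)) (row (fun w => aeval A (up f k w)) a)) := by
      rw [PiLp.inner_apply]
      refine Finset.sum_congr rfl fun i _ => ?_
      rw [col_apply, row_apply, map_sum, inner_sum]
      refine Finset.sum_congr rfl fun w _ => ?_
      have e7 : J X (fun φ => (f i).eval (s φ) * (up f k w).eval (s φ)) =
          aeval A (f i) * aeval A (up f k w) := by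
        rw [← map_mul, ← hJp]
        simp only [eval_mul]
      rw [e7]
      rfl
    have e7 : ∑ w, ∑ i, inner ℂ (a w) (J X (fun φ => (starRingEnd ℂ) ((up f k w).eval (s φ)) *
        (starRingEnd ℂ) ((f i).eval (s φ))) (c i)) =
        inner ℂ a (mat (fun w i => J X (fun φ => (starRingEnd ℂ) ((up f k w).eval (s φ)) *
        (starRingEnd ℂ) ((f i).eval (s φ)))) c) := by
      rw [PiLp.inner_apply]
      refine Finset.sum_congr rfl fun w _ => ?_
      rw [mat_apply, inner_sum]
    have e8 : ∑ i, inner ℂ (c i) (J X (fun φ => (f i).eval (s φ)) b) =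
        inner ℂ c (col (fun i => aeval A (f i)) b) := by
      rw [PiLp.inner_apply]
      exact Finset.sum_congr rfl fun w _ => by rw [col_apply, hJp]
    have e9 : ∑ i, inner ℂ b (J X (fun φ => (starRingEnd ℂ) ((f i).eval (s φ))) (c i)) =
        inner ℂ b (row (fun i => J X (fun φ => (starRingEnd ℂ) ((f i).eval (s φ)))) c) := by
      rw [row_apply, inner_sum]
    rw [e4, e5, e6, e7, e8, e9]

end Pool.Agent.H884.CR
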